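import Pool.Agent.MP_9a3194_co.En.Stm

/-! The action of the fundamental groupoid on the double cover with a potential. -/

namespace Pool.Agent.MP_9a3194_co.En

open Finset

/-- crossing the side `d` forwards -/
def step_Act {D Q : Type} [AddCommGroup Q] (M : Poly D) (γ : D → Bool) (L : D → Bool → Q)
    (h2 : ∀ ζ : Q, ζ + ζ = 0) (d : D) : Equiv.Perm (Bool × Q) where
  toFun p := (xor (xor p.1 (γ d)) (γ (M.nxt d)), p.2 + L d (xor p.1 (γ d)))
  invFun p := (xor (xor p.1 (γ (M.nxt d))) (γ d), p.2 + L d (xor p.1 (γ (M.nxt d))))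
  left_inv := fun ⟨u, z⟩ => by
    refine Prod.ext ?_ ?_
    · cases u <;> cases γ d <;> cases γ (M.nxt d) <;> rfl
    · have : xor (xor (xor u (γ d)) (γ (M.nxt d))) (γ (M.nxt d)) = xor u (γ d) := by
        cases u <;> cases γ d <;> cases γ (M.nxt d) <;> rfl
      simp only [this, add_assoc, h2, add_zero]
  right_inv := fun ⟨u, z⟩ => by
    refine Prod.ext ?_ ?_
    · cases u <;> cases γ d <;> cases γ (M.nxt d) <;> rfl
    · have : xor (xor (xor u (γ (M.nxt d))) (γ d)) (γ d) = xor u (γ (M.nxt d)) := by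
        cases u <;> cases γ d <;> cases γ (M.nxt d) <;> rfl
      simp only [this, add_assoc, h2, add_zero]

theorem act_pf : ActStm := by
  intro D M Q _ γ L hγ h2 hL hF
  let V := step_Act M γ L h2
  have hV : ∀ d p, V d p = (xor (xor p.1 (γ d)) (γ (M.nxt d)), p.2 + L d (xor p.1 (γ d))) :=
    fun _ _ => rfl
  have hV' : ∀ d p, (V d)⁻¹ p =
      (xor (xor p.1 (γ (M.nxt d))) (γ d), p.2 + L d (xor p.1 (γ (M.nxt d)))) := fun _ _ => rfl
  have face : ∀ (d : D) (n : ℕ) (u : Bool) (z : Q),
      (((List.range n).map fun i => (V ((M.nxt ^ i) d))⁻¹).prod)⁻¹ (u, z) =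
        (xor (xor u (γ d)) (γ ((M.nxt ^ n) d)),
          z + ∑ i ∈ range n, L ((M.nxt ^ i) d) (xor u (γ d))) := by
    intro d n u z
    induction n with
    | zero =>
      refine Prod.ext ?_ (by simp)
      change u = xor (xor u (γ d)) (γ d)
      cases u <;> cases γ d <;> rfl
    | succ n ih =>
      rw [List.range_succ, List.map_append, List.prod_append, List.map_singleton,
        List.prod_singleton, mul_inv_rev, inv_inv, Equiv.Perm.mul_apply, ih, hV, sum_range_succ,
        pow_succ', Equiv.Perm.mul_apply]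
      have : xor (xor (xor u (γ d)) (γ ((M.nxt ^ n) d))) (γ ((M.nxt ^ n) d)) = xor u (γ d) := by
        cases u <;> cases γ d <;> cases γ ((M.nxt ^ n) d) <;> rfl
      simp only [this, add_assoc]
  have hr : ∀ r ∈ M.rels, FreeGroup.lift (fun d => (V d)⁻¹) r = 1 := by
    rintro r ⟨d, rfl | ⟨n, hn, rfl⟩⟩
    · have a1 := hγ (d, false)
      have a2 := hγ (d, true)
      have a3 := hL d
      cases ht : M.tw d
      · simp only [Poly.mate, Poly.tail, ht, Bool.false_eq_true, if_false, if_true, Bool.not_false,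
          Bool.not_true, Bool.xor_false] at a1 a2 a3
        have e : V (M.α d) = (V d)⁻¹ := Equiv.ext fun p => by rw [hV, hV', a1, a2, a3]
        simp only [Bool.false_eq_true, if_false, map_mul, FreeGroup.lift_apply_of]
        rw [e, inv_inv, inv_mul_cancel]
      · simp only [Poly.mate, Poly.tail, ht, Bool.false_eq_true, if_false, if_true] at a1 a2 a3
        have e : V (M.α d) = V d := Equiv.ext fun p => by
          rw [hV, hV, a1, a2, ← Bool.xor_assoc p.1 (γ d) true, a3]
          congr 1
          cases p.1 <;> cases γ d <;> cases γ (M.nxt d) <;> rfl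
        simp only [if_true, map_mul, map_inv, FreeGroup.lift_apply_of]
        rw [e, mul_inv_cancel]
    · rw [map_list_prod, List.map_map, ← inv_eq_one]
      refine Equiv.ext fun ⟨u, z⟩ => ?_
      refine Eq.trans ?_ ((face d n u z).trans ?_)
      · congr 3
      · rw [hF d n _ hn, hn, add_zero]
        refine Prod.ext ?_ rfl
        change xor (xor u (γ d)) (γ d) = u
        cases u <;> cases γ d <;> rfl
  let f : PresentedGroup M.rels →* Equiv.Perm (Bool × Q) := PresentedGroup.toGroup hr
  refine ⟨fun g => ((f g)⁻¹ (false, 0)).1, fun g => ((f g)⁻¹ (false, 0)).2, fun g d => ?_⟩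
  have e0 : f (PresentedGroup.of d) = (V d)⁻¹ := PresentedGroup.toGroup.of hr
  simp only [map_mul, mul_inv_rev, e0, inv_inv, Equiv.Perm.mul_apply, hV]

end Pool.Agent.MP_9a3194_co.En
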