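import Mathlib

open Finset
open scoped symmDiff

namespace Pool.Agent.MP_9a3194_co.En.UB

variable {W : Type} [Fintype W] [DecidableEq W]

/-- a fractional perfect matching with heavy odd cuts gives a perfect matching -/
theorem match_one (x : W → W → ℝ) (hs : ∀ u v, x u v = x v u) (h0 : ∀ u v, 0 ≤ x u v)
    (hd : ∀ u, x u u = 0) (h1 : ∀ u, ∑ v, x u v = 1)
    (ho : ∀ K : Finset W, Odd K.card → 1 ≤ ∑ u ∈ K, ∑ v ∈ Kᶜ, x u v) :
    ∃ μ : W → W, (∀ u, μ (μ u) = u) ∧ ∀ u, x u (μ u) ≠ 0 := by
  classical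
  let G : SimpleGraph W :=
    { Adj := fun u v => x u v ≠ 0
      symm := ⟨fun u v h => by rwa [hs]⟩
      loopless := ⟨fun u h => h (hd u)⟩ }
  have key : ∀ u : Set W, ¬ G.IsTutteViolator u := by
    intro u
    unfold SimpleGraph.IsTutteViolator
    rw [not_lt]
    set H := ((⊤ : G.Subgraph).deleteVerts u).coe with hH
    let XC : H.ConnectedComponent → Finset W := fun c => (Subtype.val '' c.supp).toFinset
    have hmem : ∀ c a, a ∈ XC c ↔ ∃ hx : a ∈ ((⊤ : G.Subgraph).deleteVerts u).verts,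
        H.connectedComponentMk ⟨a, hx⟩ = c := by
      intro c a
      simp only [XC, Set.mem_toFinset, Set.mem_image, SimpleGraph.ConnectedComponent.mem_supp_iff]
      constructor
      · rintro ⟨y, hy, rfl⟩
        exact ⟨y.2, hy⟩
      · rintro ⟨hx, hc⟩
        exact ⟨⟨a, hx⟩, hc, rfl⟩
    have hcard : ∀ c, (XC c).card = c.supp.ncard := by
      intro c
      rw [← Set.ncard_image_of_injective c.supp Subtype.val_injective, Set.ncard_eq_toFinset_card']
    let O : Finset H.ConnectedComponent := H.oddComponents.toFinset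
    let U : Finset W := u.toFinset
    have h3 : ∀ c ∈ O, (1 : ℝ) ≤ ∑ a ∈ XC c, ∑ v ∈ U, x a v := by
      intro c hc
      refine (ho (XC c) (by rw [hcard]; simpa [O] using hc)).trans (sum_le_sum fun a ha => ?_)
      rw [← sum_filter_ne_zero]
      refine sum_le_sum_of_subset_of_nonneg (fun v hv => ?_) fun v _ _ => h0 a v
      obtain ⟨hv, hadj⟩ := mem_filter.1 hv
      by_contra hu
      have hu' : v ∉ u := by simpa [U] using hu
      obtain ⟨hx, hc⟩ := (hmem c _).1 ha
      have hy : v ∈ ((⊤ : G.Subgraph).deleteVerts u).verts := by simp [hu']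
      apply mem_compl.1 hv
      refine (hmem c _).2 ⟨hy, ?_⟩
      rw [← hc]
      refine (SimpleGraph.ConnectedComponent.connectedComponentMk_eq_of_adj ?_).symm
      have hx' : a ∉ u := by simpa using hx
      have hadj' : G.Adj a v := hadj
      simp [hH, SimpleGraph.Subgraph.deleteVerts_adj, hx', hu', hadj']
    have hdisj : (O : Set H.ConnectedComponent).PairwiseDisjoint XC := by
      intro c _ d _ hcd
      refine disjoint_left.2 fun a a1 a2 => ?_
      obtain ⟨_, hc⟩ := (hmem c _).1 a1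
      obtain ⟨_, hd⟩ := (hmem d _).1 a2
      exact hcd (hc.symm.trans hd)
    have h4 : (O.card : ℝ) ≤ U.card := by
      calc (O.card : ℝ) = ∑ _c ∈ O, (1 : ℝ) := by simp
        _ ≤ ∑ c ∈ O, ∑ a ∈ XC c, ∑ v ∈ U, x a v := sum_le_sum h3
        _ = ∑ a ∈ O.biUnion XC, ∑ v ∈ U, x a v := (sum_biUnion hdisj).symm
        _ ≤ ∑ a, ∑ v ∈ U, x a v := sum_le_univ_sum_of_nonneg fun a => sum_nonneg fun v _ => h0 a v
        _ = ∑ _v ∈ U, (1 : ℝ) := by
          rw [sum_comm]
          exact sum_congr rfl fun v _ => (sum_congr rfl fun a _ => hs a v).trans (h1 v)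
        _ = U.card := by simp
    rw [Set.ncard_eq_toFinset_card', Set.ncard_eq_toFinset_card']
    exact_mod_cast h4
  obtain ⟨M, hM⟩ := (SimpleGraph.tutte (G := G)).2 key
  rw [SimpleGraph.Subgraph.isPerfectMatching_iff] at hM
  choose μ hμ hu using hM
  exact ⟨μ, fun v => (hu (μ v) v (hμ v).symm).symm, fun v => (hμ v).adj_sub⟩

/-- the same for `b`-matchings -/
theorem bmatch (b : W → ℕ) (x : W → W → ℝ) (hs : ∀ u v, x u v = x v u) (h0 : ∀ u v, 0 ≤ x u v)
    (hd : ∀ u, x u u = 0) (h1 : ∀ u, ∑ v, x u v = b u)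
    (ho : ∀ K : Finset W, Odd (∑ u ∈ K, b u) → 1 ≤ ∑ u ∈ K, ∑ v ∈ Kᶜ, x u v) :
    ∃ n : W → W → ℕ, (∀ u v, n u v = n v u) ∧ (∀ u v, x u v = 0 → n u v = 0) ∧
      ∀ u, ∑ v, n u v = b u := by
  classical
  have hz : ∀ u v (c : ℝ), (b v : ℝ) * (x u v / (c * b v)) = x u v / c := fun u v c => by
    by_cases h : (b v : ℝ) = 0
    · have h2 := single_le_sum (f := x v) (fun w _ => h0 v w) (mem_univ u)
      rw [h1, h, hs] at h2
      rw [h, le_antisymm h2 (h0 u v)]
      simp
    · rw [mul_div_assoc', mul_comm c, mul_div_mul_left _ _ h]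
  let y : (Σ u, Fin (b u)) → (Σ u, Fin (b u)) → ℝ := fun p q => x p.1 q.1 / (b p.1 * b q.1)
  have ys : ∀ p q, y p q = y q p := fun p q => by simp only [y, hs p.1, mul_comm]
  have y0 : ∀ p q, 0 ≤ y p q := fun p q => div_nonneg (h0 _ _) (by positivity)
  have y1 : ∀ p, ∑ q, y p q = 1 := fun p => by
    simp only [y, Fintype.sum_sigma, sum_const, card_univ, Fintype.card_fin, nsmul_eq_mul, hz]
    rw [← sum_div, h1, div_self (Nat.cast_ne_zero.2 p.2.pos.ne')]
  obtain ⟨μ, hμ, hx⟩ := match_one y ys y0 (fun p => by simp only [y, hd, zero_div]) y1 (by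
    intro K hK
    by_cases h : ∃ p ∈ K, ∃ q ∉ K, p.1 = q.1
    · obtain ⟨p, hp, q, hq, e⟩ := h
      have e1 : ∀ a, y a q = y p a := fun a => by simp only [y, e, hs a.1, mul_comm]
      have e2 : y p p = 0 := by simp only [y, hd, zero_div]
      rw [← y1 p, ← sum_add_sum_compl K, ← add_sum_erase _ _ hp, ← add_sum_erase _ _ hp, e2,
        zero_add, add_comm]
      refine add_le_add_right (sum_le_sum fun a _ => ?_) _
      rw [← e1]
      exact single_le_sum (f := y a) (fun c _ => y0 a c) (mem_compl.2 hq)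
    · have e : ∀ p, p ∈ K ↔ p.1 ∈ K.image Sigma.fst := fun p =>
        ⟨mem_image_of_mem _, fun hp => by
          obtain ⟨q, hq, e⟩ := mem_image.1 hp
          by_contra hp'
          exact h ⟨q, hq, p, hp', e⟩⟩
      generalize K.image Sigma.fst = L at e
      have e1 : K = L.sigma fun _ => univ := by
        ext p
        simp [e]
      have e2 : Kᶜ = Lᶜ.sigma fun _ => univ := by
        ext p
        simp [e]
      rw [e1, card_sigma] at hK
      rw [e2, e1]
      simp only [card_univ, Fintype.card_fin] at hK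
      refine (ho L hK).trans_eq ?_
      simp only [y, sum_sigma, sum_const, card_univ, Fintype.card_fin, nsmul_eq_mul, hz, mul_sum]
      refine sum_congr rfl fun u _ => sum_congr rfl fun v _ => ?_
      have := hz v u 1
      rwa [one_mul, div_one, hs, eq_comm] at this)
  refine ⟨fun u v => (univ.filter fun p => p.1 = u ∧ (μ p).1 = v).card, fun u v => ?_,
    fun u v h => ?_, fun u => ?_⟩
  · refine card_nbij' μ μ (fun p hp => ?_) (fun p hp => ?_) (fun p _ => hμ p) fun p _ => hμ p
    all_goals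
      simp only [coe_filter, mem_univ, true_and, Set.mem_ofPred_eq, hμ] at hp ⊢
      exact hp.symm
  · refine card_eq_zero.2 (filter_eq_empty_iff.2 ?_)
    rintro p - ⟨rfl, rfl⟩
    exact hx p (by simp only [y, h, zero_div])
  · have e : (univ.filter fun p : (Σ u, Fin (b u)) => p.1 = u) = ({u} : Finset W).sigma
        fun _ => univ := by
      ext p
      simp
    have := card_eq_sum_card_fiberwise (f := fun p => (μ p).1)
      (s := univ.filter fun p : (Σ u, Fin (b u)) => p.1 = u) (t := univ) fun _ _ => mem_univ _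
    simp only [filter_filter] at this
    rw [← this, e, card_sigma]
    simp

end Pool.Agent.MP_9a3194_co.En.UB
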