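import Pool.Agent.MP_9a3194_co.En.Stm
import Pool.Agent.MP_9a3194_co.En.UB

open Finset

namespace Pool.Agent.MP_9a3194_co.En

section
variable {D W : Type} [Fintype D] [Fintype W] [DecidableEq W]

omit [Fintype W] in
theorem sum_pair_Bm (p q : D → W) (c : D → ℝ) (A B : Finset W) :
    ∑ u ∈ A, ∑ v ∈ B, ∑ d, (if p d = u ∧ q d = v then c d else 0) =
      ∑ d, if p d ∈ A ∧ q d ∈ B then c d else 0 := by
  simp only [sum_comm (t := (univ : Finset D))]
  refine sum_congr rfl fun d _ => ?_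
  simp [ite_and]

theorem graph_Bm (p q : D → W) (c : D → ℝ) (hc : ∀ d, 0 ≤ c d) (hpq : ∀ d, p d ≠ q d)
    (bb : W → ℕ)
    (hb : ∀ w, ∑ d, ((if p d = w then c d else 0) + if q d = w then c d else 0) = bb w)
    (hK : ∀ K : Finset W, Odd (∑ u ∈ K, bb u) →
      1 ≤ ∑ a, if (p a ∈ K ↔ q a ∈ K) then 0 else c a) :
    ∃ n : W → W → ℕ, (∀ u v, n u v = n v u) ∧
      (∀ u v, n u v ≠ 0 → ∃ d, c d ≠ 0 ∧ s(p d, q d) = s(u, v)) ∧
      ∀ u, ∑ v, n u v = bb u := by
  obtain ⟨n, h1, h2, h3⟩ := UB.bmatch bb (fun u v => ∑ d, (if p d = u ∧ q d = v then c d else 0) +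
    ∑ d, if q d = u ∧ p d = v then c d else 0)
    (fun u v => by simp only [and_comm (a := q _ = _)]; exact add_comm _ _)
    (fun u v => add_nonneg (sum_nonneg fun d _ => ite_nonneg (hc d) le_rfl)
      (sum_nonneg fun d _ => ite_nonneg (hc d) le_rfl))
    (fun u => by
      rw [sum_eq_zero fun d _ => if_neg fun h => hpq d (h.1.trans h.2.symm),
        sum_eq_zero fun d _ => if_neg fun h => hpq d (h.2.trans h.1.symm), add_zero])
    (fun u => by
      have e1 := sum_pair_Bm p q c {u} univ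
      have e2 := sum_pair_Bm q p c {u} univ
      simp only [sum_singleton, mem_singleton, mem_univ, and_true] at e1 e2
      rw [sum_add_distrib, e1, e2, ← sum_add_distrib, hb])
    (fun K h => (hK K h).trans (le_of_eq (by
      simp only [sum_add_distrib]
      rw [sum_pair_Bm, sum_pair_Bm, ← sum_add_distrib]
      refine sum_congr rfl fun d _ => ?_
      by_cases h1 : p d ∈ K <;> by_cases h2 : q d ∈ K <;> simp [h1, h2])))
  refine ⟨n, h1, fun u v h => ?_, h3⟩
  by_contra h4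
  simp only [not_exists, not_and] at h4
  refine h (h2 u v ?_)
  have e1 : ∀ d, (if p d = u ∧ q d = v then c d else 0) = 0 := fun d =>
    ite_eq_right_iff.2 fun k => by_contra fun k' => h4 d k' (by rw [k.1, k.2])
  have e2 : ∀ d, (if q d = u ∧ p d = v then c d else 0) = 0 := fun d =>
    ite_eq_right_iff.2 fun k => by_contra fun k' => h4 d k' (by rw [k.1, k.2, Sym2.eq_swap])
  simp only [e1, e2, sum_const_zero, add_zero]

omit [Fintype W] in
theorem par_Bm (p q : D → W) (c : D → ℝ) (hc : ∀ d, 0 ≤ c d) (bb : W → ℕ)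
    (hb : ∀ w, ∑ d, ((if p d = w then c d else 0) + if q d = w then c d else 0) = bb w)
    (K : Finset W) (hK : Odd (∑ u ∈ K, bb u)) (χ : W → Bool)
    (hχ : ∀ d, c d ≠ 0 → p d ∈ K → q d ∈ K → χ (p d) ≠ χ (q d)) :
    1 ≤ ∑ a, if (p a ∈ K ↔ q a ∈ K) then 0 else c a := by
  have h1 : Odd (∑ u ∈ K, if χ u then (bb u : ℤ) else -bb u) := by
    have e : ∑ u ∈ K, (if χ u then (bb u : ℤ) else -bb u) =
        ((∑ u ∈ K, bb u : ℕ) : ℤ) - 2 * ∑ u ∈ K, if χ u then 0 else (bb u : ℤ) := by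
      rw [Nat.cast_sum, mul_sum, ← sum_sub_distrib]
      refine sum_congr rfl fun u _ => ?_
      split_ifs <;> ring
    rw [e]
    exact (hK.natCast (R := ℤ)).sub_even (even_two_mul _)
  have h2 : (1 : ℝ) ≤ |∑ u ∈ K, (if χ u then (1 : ℝ) else -1) * bb u| := by
    have h3 := Int.one_le_abs fun h => Int.not_odd_zero (h ▸ h1)
    have e : ∑ u ∈ K, (if χ u then (1 : ℝ) else -1) * bb u =
        ((∑ u ∈ K, if χ u then (bb u : ℤ) else -bb u : ℤ) : ℝ) := by
      push_cast
      refine sum_congr rfl fun u _ => ?_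
      cases χ u <;> simp
    rw [e]
    exact_mod_cast h3
  refine h2.trans ?_
  simp only [← hb, mul_sum]
  rw [sum_comm]
  refine (abs_sum_le_sum_abs _ _).trans (sum_le_sum fun d _ => ?_)
  simp only [mul_add, sum_add_distrib, mul_ite, mul_zero, sum_ite_eq]
  by_cases h0 : c d = 0
  · simp [h0]
  by_cases h1 : p d ∈ K <;> by_cases h2 : q d ∈ K
  · have := hχ d h0 h1 h2
    revert this
    cases χ (p d) <;> cases χ (q d) <;> simp [h1, h2]
  all_goals cases χ (p d) <;> cases χ (q d) <;> simp [h1, h2, abs_of_nonneg (hc d)]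

end

theorem bm_pf : BmStm := by
  intro W A _ _ _ _ p q c bb hc hpq hb hev hK
  classical
  obtain ⟨n, n1, n2, n3⟩ := graph_Bm p q c hc hpq bb hb fun K hO => by
    rcases hK K with h | ⟨χ, h⟩ | ⟨χ, h⟩
    · exact h
    · exact par_Bm p q c hc bb hb K hO χ h
    · refine (par_Bm p q c hc bb hb Kᶜ ?_ χ fun d h0 h1 h2 =>
        h d h0 (mem_compl.1 h1) (mem_compl.1 h2)).trans (le_of_eq ?_)
      · rw [← sum_add_sum_compl K] at hev
        exact Nat.not_even_iff_odd.1 fun h =>
          Nat.not_even_iff_odd.2 hO ((Nat.even_add.1 hev).2 h)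
      · simp only [mem_compl, not_iff_not]
  obtain ⟨S, hS, hB⟩ :=
    (Set.surjOn_image (fun a => s(p a, q a)) {a | c a ≠ 0}).exists_bijOn_subset
  refine ⟨fun a => if a ∈ S then n (p a) (q a) else 0, fun a h => if_neg fun k => hS k h,
    fun w => ?_⟩
  have e : ∀ a, ((if p a = w then (if a ∈ S then n (p a) (q a) else 0) else 0) +
      if q a = w then (if a ∈ S then n (p a) (q a) else 0) else 0) =
      ∑ v, if a ∈ S ∧ s(p a, q a) = s(w, v) then n w v else 0 := fun a => by
    have h0 := hpq a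
    by_cases h : a ∈ S
    · by_cases h1 : p a = w
      · subst h1
        simp [h, h0.symm]
      · by_cases h2 : q a = w
        · subst h2
          simp [h, h0, n1 (p a)]
        · simp [h1, h2]
    · simp [h]
  rw [sum_congr rfl fun a _ => e a, sum_comm, ← n3 w]
  refine sum_congr rfl fun v _ => ?_
  by_cases h : n w v = 0
  · simp [h]
  obtain ⟨d, h1, h2⟩ := n2 w v h
  obtain ⟨a, h3, h4⟩ := hB.surjOn ⟨d, h1, h2⟩
  rw [sum_eq_single a (fun b _ hb' => if_neg fun k => hb' (hB.injOn k.1 h3 (k.2.trans h4.symm)))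
    (by simp), if_pos ⟨h3, h4⟩]

end Pool.Agent.MP_9a3194_co.En
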