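import Pool.Agent.MP_9a3194_co.En.Stm

/-! The core step for graphs without twisted edges. -/

open Finset

namespace Pool.Agent.MP_9a3194_co.En

theorem sum_dv_CoreB {D T : Type} [Fintype D] [Fintype T] [DecidableEq T] (G : SG D T)
    (htw : ∀ d, G.tw d = false) (x : D → ℝ) (hx : G.Rule x) : ∑ t, G.dv x t = 0 := by
  have h1 : ∑ t, G.dv x t = ∑ d, x d := sum_fiberwise univ G.fc x
  have h2 : ∑ d, x (G.r d) = ∑ d, x d :=
    Equiv.sum_comp (Function.Involutive.toPerm G.r G.rr) x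
  have h3 : ∑ d, x (G.r d) = -∑ d, x d := by
    rw [← sum_neg_distrib]
    exact sum_congr rfl fun d _ => by rw [hx d, htw d]; rfl
  linarith

theorem cast_dv_CoreB {D T : Type} [Fintype D] [DecidableEq T] (G : SG D T) (x : D → ℤ) (t : T) :
    ((G.dv x t : ℤ) : ℝ) = G.dv (fun d => (x d : ℝ)) t := by
  simp only [SG.dv, Int.cast_sum]

theorem mul_dv_CoreB {D T R : Type} [Fintype D] [DecidableEq T] [Semiring R] (G : SG D T) (a : R)
    (x : D → R) (t : T) : G.dv (fun d => a * x d) t = a * G.dv x t := by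
  simp only [SG.dv, mul_sum]

theorem mul_rule_CoreB {D T R : Type} [Ring R] (G : SG D T) (a : R) (x : D → R) (hx : G.Rule x) :
    G.Rule fun d => a * x d := fun d => by
  simp only [hx d]
  split_ifs <;> simp

theorem cast_rule_CoreB {D T : Type} (G : SG D T) (x : D → ℤ) (hx : G.Rule x) :
    G.Rule fun d => (x d : ℝ) := fun d => by
  simp only [hx d]
  split_ifs <;> simp

theorem side_CoreB (hS : SideStm) (hR : RankStm) {D T : Type} [Fintype D] [DecidableEq D]
    [Fintype T] [DecidableEq T] (G : SG D T) (htw : ∀ d, G.tw d = false) (σ ε : ℝ) (hσ : 0 < σ)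
    (hD : G.Den σ) (t₀ : T) (h0 : 0 < ε) (h1 : ε < 1) :
    ∃ (x : D → ℤ) (C : D → ℝ), G.Rule x ∧ (∀ d, Even (x d - 1)) ∧ G.Rule C ∧
      (∀ d, |C d| ≤ σ⁻¹ + ε) ∧ ∀ t, ((G.dv x t : ℤ) : ℝ) = G.dv C t := by
  let z : T → ℤ := fun t => if t = t₀ then 1 else 0
  have hz : ∑ t, (z t : ℝ) = 1 := by simp [z]
  obtain ⟨x, C, m, c, hx, he, hC, hb, hc, hid⟩ := hS D T G z σ⁻¹ 1 ε (by positivity) zero_le_one h0
    fun F => by
      obtain ⟨r1, r2, -⟩ := hR D T G σ z F hσ.le hD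
      have key : ∀ a n : ℝ, 2 * σ * a ≤ n → a ≤ σ⁻¹ / 2 * n := fun a n h => by
        have e : a = σ⁻¹ / 2 * (2 * σ * a) := by field_simp
        rw [e]
        exact mul_le_mul_of_nonneg_left h (by positivity)
      split_ifs with hn
      · rw [add_zero]
        refine key _ _ (r2 ⟨t₀, fun ψ hψ => ?_⟩)
        have := hψ none hn
        simpa [SG.vec, z] using this
      · have := key _ _ r1
        linarith
  have hs : ∑ t, (((G.dv x t : ℤ) : ℝ) + 2 * m * z t) = ∑ t, (G.dv C t + c * z t) :=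
    sum_congr rfl fun t _ => hid t
  simp only [sum_add_distrib, ← mul_sum, hz, cast_dv_CoreB] at hs
  rw [sum_dv_CoreB G htw _ (cast_rule_CoreB G x hx), sum_dv_CoreB G htw C hC] at hs
  have hm : m = 0 := by
    have a1 := abs_le.1 hc
    have a2 : (m : ℝ) < 1 := by linarith [a1.2]
    have a3 : (-1 : ℝ) < m := by linarith [a1.1]
    have a4 : m < 1 := by exact_mod_cast a2
    have a5 : -1 < m := by exact_mod_cast a3
    omega
  have hc0 : c = 0 := by
    rw [hm] at hs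
    simpa using hs.symm
  refine ⟨x, C, hx, he, hC, hb, fun t => ?_⟩
  have := hid t
  rw [hm, hc0] at this
  simpa using this

theorem coreB_pf (hS : SideStm) (hR : RankStm) (hH : HofStm) (hT : TwoStm) : CoreBStm := by
  intro p q σ hpq hσ D T _ _ _ _ G htw hD
  rcases isEmpty_or_nonempty T with hT0 | ⟨⟨t₀⟩⟩
  · exact ⟨fun _ => 0, fun d => (hT0.false (G.fc d)).elim, fun d => (hT0.false (G.fc d)).elim,
      fun t => (hT0.false t).elim⟩
  obtain ⟨κ, hκ⟩ : ∃ κ : ℕ, κ + 2 * q = p := ⟨p - 2 * q, by omega⟩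
  have hκR : (κ : ℝ) + 2 * q = p := by exact_mod_cast hκ
  have hκZ : (κ : ℤ) + 2 * q = p := by exact_mod_cast hκ
  have hκ0 : (0 : ℝ) < κ := by exact_mod_cast (by omega : 0 < κ)
  have hq0 : (0 : ℝ) ≤ q := Nat.cast_nonneg q
  have hp1 : (1 : ℝ) ≤ p := by exact_mod_cast (by omega : 1 ≤ p)
  rw [show (p : ℝ) - 2 * q = κ by linarith] at hσ
  have hσ1 : 1 ≤ σ := by
    by_contra h
    nlinarith [not_le.1 h]
  have hσ0 : 0 < σ := by linarith
  have hn : (0 : ℝ) ≤ Fintype.card D := Nat.cast_nonneg _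
  set n : ℝ := (Fintype.card D : ℝ)
  have hpn : 0 ≤ p * n := by positivity
  have hε0 : 0 < 1 / (2 * (p * n + 1)) := by positivity
  have hε2 : 1 / (2 * (p * n + 1)) * (2 * (p * n + 1)) = 1 := by field_simp
  set ε : ℝ := 1 / (2 * (p * n + 1))
  have hε3 : 0 ≤ ε * (p * n) := by positivity
  have hε1 : ε < 1 := by nlinarith
  have hε4 : p * ε * n < 1 := by nlinarith
  have hε5 : ε * n < 1 := by nlinarith [mul_nonneg hε0.le hn]
  obtain ⟨x, C, hx, he, hC, hb, hid⟩ := side_CoreB hS hR G htw σ ε hσ0 hD t₀ hε0 hε1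
  have hi1 : σ⁻¹ ≤ 1 := inv_le_one_of_one_le₀ hσ1
  have hi2 : p * σ⁻¹ ≤ κ := by
    rw [← div_eq_mul_inv, div_le_iff₀ hσ0]
    linarith
  obtain ⟨y, hy, hye, hyb, hyd⟩ := hH D T G htw 1 x C ε hε0.le hε5 hx hC
    (fun d => by simpa using he d) (fun d => by have := hb d; push_cast; linarith) hid
  obtain ⟨h, hh, hhe, hhb, hhd⟩ := hH D T G htw κ (fun d => (p : ℤ) * y d) (fun d => p * C d)
    (p * ε) (by positivity) hε4 (mul_rule_CoreB G _ y hy) (mul_rule_CoreB G _ C hC)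
    (fun d => by
      obtain ⟨a, ha⟩ := hye d
      refine ⟨p * a + q, ?_⟩
      push_cast at ha
      linear_combination (p : ℤ) * ha - hκZ)
    (fun d => by
      rw [abs_mul, Nat.abs_cast]
      have := mul_le_mul_of_nonneg_left (hb d) (by linarith : (0 : ℝ) ≤ p)
      linarith)
    (fun t => by
      rw [mul_dv_CoreB, mul_dv_CoreB, hyd, Int.cast_mul, hid, Int.cast_natCast])
  exact hT D T G p q κ y h hκ hy hh hye hyb hhe hhb hhd

end Pool.Agent.MP_9a3194_co.En
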