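import Pool.Agent.MP_9a3194_co.En.Stm

/-! The core statement for signed graphs far from balanced. -/

open Finset

namespace Pool.Agent.MP_9a3194_co.En

theorem rule_mul_CoreU {D T R : Type} [Ring R] (G : SG D T) (c : R) {x : D → R} (h : G.Rule x) :
    G.Rule (fun d => c * x d) := by
  intro d
  simp only [h d]
  split_ifs <;> simp

theorem dv_mul_CoreU {D T R : Type} [Fintype D] [DecidableEq T] [Ring R] (G : SG D T) (c : R)
    (x : D → R) (t : T) : G.dv (fun d => c * x d) t = c * G.dv x t := by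
  simp only [SG.dv, mul_sum]

theorem coreU_pf (hS : SideStm) (hR : RankStm) (hN : RndStm) (hT : TwoStm) : CoreUStm := by
  intro p q σ hpq hσ
  obtain ⟨κ, hκ⟩ : ∃ κ : ℕ, κ + 2 * q = p := ⟨p - 2 * q, by omega⟩
  have hκr : (p : ℝ) - 2 * q = κ := by rw [← hκ]; push_cast; ring
  rw [hκr] at hσ
  have hκ1 : (1 : ℝ) ≤ κ := by exact_mod_cast (by omega : 1 ≤ κ)
  have hκp : (κ : ℝ) ≤ p := by exact_mod_cast (by omega : κ ≤ p)
  have hp0 : (0 : ℝ) < p := by linarith
  have hσ0 : 0 < σ := by
    by_contra h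
    have : σ * κ ≤ 0 := mul_nonpos_of_nonpos_of_nonneg (not_lt.1 h) (by linarith)
    linarith
  obtain ⟨g, hg⟩ : ∃ g : ℝ, g = κ / p - 1 / σ := ⟨_, rfl⟩
  have hg0 : 0 < g := by
    rw [hg, sub_pos, div_lt_div_iff₀ hσ0 hp0]
    linarith
  obtain ⟨k, hk⟩ := exists_nat_ge (8 / g)
  have hk0 : (0 : ℝ) < k := lt_of_lt_of_le (by positivity) hk
  have hkg : 8 ≤ k * g := (div_le_iff₀ hg0).1 hk
  have h2k : 2 / (k : ℝ) ≤ g / 4 := by
    rw [div_le_iff₀ hk0]
    linarith
  refine ⟨k, fun D T _ _ _ _ G hD ho hX => ?_⟩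
  obtain ⟨x, C, m₀, c₀, hx, hxe, hC, hCb, -, hdv⟩ := hS D T G 0 (1 / σ + 2 / k) 0 (g / 4)
    (by positivity) le_rfl (by positivity) (fun F => by
      obtain ⟨h1, h2, h3⟩ := hR D T G σ 0 F hσ0.le hD
      rw [ite_self, add_zero]
      generalize (Module.finrank ℝ (ann (G.vec 0) F) : ℝ) = r at h1 h2 ⊢
      have key : (∃ o : T → Bool, ∀ d, some d ∈ F → G.Ok o d) →
          (k : ℝ) ≤ ((univ.filter fun d => some d ∉ F).card : ℝ) := by
        rintro ⟨o, h4⟩
        exact_mod_cast (ho o).trans (card_le_card fun d hd => by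
          simp only [mem_filter, mem_univ, true_and] at hd ⊢
          exact fun h => hd (h4 d h))
      have hN0 : (0 : ℝ) ≤ ((univ.filter fun d => some d ∉ F).card : ℝ) := Nat.cast_nonneg _
      generalize ((univ.filter fun d => some d ∉ F).card : ℝ) = N at h1 h2 key hN0 ⊢
      have e : (1 / σ + 2 / k) / 2 * N = N / (2 * σ) + N / k := by field_simp
      rw [e]
      by_cases h : ∃ t, ∀ ψ ∈ ann (G.vec 0) F, ψ t = 0
      · have k1 : r ≤ N / (2 * σ) := by
          rw [le_div_iff₀ (by positivity)]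
          linarith [h2 h]
        have k2 : 0 ≤ N / k := by positivity
        linarith
      · push Not at h
        have k1 : r - 1 ≤ N / (2 * σ) := by
          rw [le_div_iff₀ (by positivity)]
          linarith
        have k2 : 1 ≤ N / k := by
          rw [le_div_iff₀ hk0]
          linarith [key (h3 h)]
        linarith)
  have hdv' : ∀ t, ((G.dv x t : ℤ) : ℝ) = G.dv C t := fun t => by simpa using hdv t
  have hCb' : ∀ d, |C d| ≤ κ / p - g / 2 := fun d => by linarith [hCb d]
  have hcut : ∀ X : Finset T, g / 4 * ((G.out X).card : ℝ) < 1 → G.Bal X ∨ G.Bal Xᶜ := by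
    intro X h
    refine hX X ?_
    have : ((G.out X).card : ℝ) < k := by
      by_contra h'
      have := mul_le_mul_of_nonneg_right (not_lt.1 h') hg0.le
      linarith
    exact_mod_cast this
  have hle : (κ : ℝ) / p ≤ 1 := (div_le_one hp0).2 hκp
  obtain ⟨x₁, k1, k2, k3, k4⟩ := hN D T G 1 x C (g / 4) (by positivity) hx hC
    (fun d => by simpa using hxe d) (fun d => by have := hCb' d; push_cast; linarith) hdv' hcut
  obtain ⟨h, l1, l2, l3, l4⟩ := hN D T G κ (fun d => (p : ℤ) * x₁ d) (fun d => (p : ℝ) * C d)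
    (g / 4) (by positivity) (rule_mul_CoreU G _ k1) (rule_mul_CoreU G _ hC)
    (fun d => by
      have e : (p : ℤ) * x₁ d - κ = p * (x₁ d - (1 : ℕ)) + 2 * q := by
        rw [← hκ]; push_cast; ring
      rw [e]
      exact ((k2 d).mul_left _).add (even_two_mul _))
    (fun d => by
      rw [abs_mul, abs_of_pos hp0]
      have h1 := mul_le_mul_of_nonneg_left (hCb' d) hp0.le
      have h2 : (p : ℝ) * (κ / p - g / 2) = κ - p * g / 2 := by field_simp
      have h3 : g ≤ p * g := le_mul_of_one_le_left hg0.le (by linarith)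
      linarith)
    (fun t => by
      rw [dv_mul_CoreU, dv_mul_CoreU, k4, Int.cast_mul, hdv']
      simp) hcut
  exact hT D T G p q κ x₁ h hκ k1 l1 k2 k3 l2 l3 l4

end Pool.Agent.MP_9a3194_co.En
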