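import Pool.Agent.MP_9a3194_co.En.Stm

/-! Small cuts of the signed dual of a wide map have a balanced side. -/

open Finset

namespace Pool.Agent.MP_9a3194_co.En

variable {D T : Type}

theorem fc_nxt_Cuts {M : Poly D} {G : SG D T} (h : M.Dual G) (d : D) :
    G.fc (M.nxt d) = G.fc d :=
  (h.2.2.1 _ _).2 (by simpa using Equiv.Perm.SameCycle.refl M.nxt d)

theorem fc_tail_Cuts {M : Poly D} {G : SG D T} (h : M.Dual G) (e : D × Bool) :
    G.fc (M.tail e) = G.fc e.1 := by
  unfold Poly.tail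
  split_ifs
  exacts [fc_nxt_Cuts h _, rfl]

theorem fc_mate_Cuts {M : Poly D} {G : SG D T} (h : M.Dual G) (e : D × Bool) :
    G.fc (M.tail (M.mate e)) = G.fc (G.r e.1) := by
  rw [fc_tail_Cuts h, h.1]
  rfl

theorem desc_Cuts [Fintype D] {M : Poly D} {G : SG D T} (h : M.Dual G) {R : Type} (y : D → R)
    (hy : ∀ d, y (M.nxt d) = y d) : ∃ Y : T → R, ∀ d, Y (G.fc d) = y d := by
  classical
  have h1 : ∀ (n : ℕ) (d : D), y ((M.nxt ^ n) d) = y d := fun n d => by
    induction n with
    | zero => rfl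
    | succ n ih => rw [pow_succ', Equiv.Perm.mul_apply, hy, ih]
  refine ⟨fun t => y (Function.surjInv h.2.2.2 t), fun d => ?_⟩
  obtain ⟨n, -, hn⟩ := ((h.2.2.1 _ _).1
    (Function.surjInv_eq h.2.2.2 (G.fc d)).symm).exists_pow_eq'
  beta_reduce
  rw [← hn, h1]

theorem conn_Cuts [Fintype D] [Fintype T] {G : SG D T} {σ : ℝ} (hσ : 0 < σ) (hD : G.Den σ)
    (v : T → ZMod 2) (hv : ∀ d, v (G.fc (G.r d)) = v (G.fc d)) (t t' : T) : v t = v t' := by
  have h1 := hD fun t => (v t).val
  rw [filter_false_of_mem fun d _ => by simp [hv], card_empty, Nat.cast_zero] at h1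
  have h2 : ((univ.image fun t => (v t).val).card : ℝ) ≤ 1 := by nlinarith
  have h3 : (univ.image fun t => (v t).val).card ≤ 1 := by exact_mod_cast h2
  exact ZMod.val_injective 2 (card_le_one.1 h3 _ (mem_image_of_mem _ (mem_univ t)) _
    (mem_image_of_mem _ (mem_univ t')))

theorem key_Cuts (hK : KeyStm) [Fintype D] [DecidableEq D] {M : Poly D} {G : SG D T}
    (h : M.Dual G) {c : ℕ} (hW : M.Wide c) (Z : Finset D) (g : D → Bool)
    (hg : ∀ e, xor (g (M.tail (M.mate e))) (g (M.tail e)) = decide (e.1 ∈ Z))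
    (hc : 2 ^ Z.card ≤ c) : ∃ Y : T → Bool → ZMod 2,
      (∀ d ∉ Z, ∀ b, Y (G.fc (G.r d)) (xor b (G.tw d)) = Y (G.fc d) b) ∧
      (∀ d ∉ Z, Y (G.fc (G.r d)) false + Y (G.fc (G.r d)) true =
        Y (G.fc d) false + Y (G.fc d) true) ∧
      ∀ d ∈ Z, Y (G.fc (G.r d)) false + Y (G.fc (G.r d)) true =
        Y (G.fc d) false + Y (G.fc d) true + 1 := by
  obtain ⟨y, h1, h2, h3⟩ := hK D M c hW Z g hg hc
  obtain ⟨Y, hY⟩ := desc_Cuts h y fun d => funext (h1 d)
  have h4 : ∀ d ∉ Z, ∀ b, Y (G.fc (G.r d)) (xor b (G.tw d)) = Y (G.fc d) b := fun d hd b => by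
    rw [hY, hY, h.1, h.2.1, h2 d hd]
  refine ⟨Y, h4, fun d hd => ?_, fun d hd => ?_⟩
  · rw [← h4 d hd, ← h4 d hd]
    cases G.tw d <;> simp [add_comm]
  · have h5 := h3 d hd
    rw [hY, hY, h.1]
    generalize y d false + y d true = a at h5 ⊢
    generalize y (M.α d) false + y (M.α d) true = b at h5 ⊢
    revert a b
    decide

theorem bal_Cuts {G : SG D T} (Y : T → Bool → ZMod 2) (A : Finset T)
    (hA : ∀ t ∈ A, Y t false + Y t true = 1)
    (hY : ∀ d, G.fc d ∈ A → G.fc (G.r d) ∈ A →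
      ∀ b, Y (G.fc (G.r d)) (xor b (G.tw d)) = Y (G.fc d) b) : G.Bal A := by
  refine ⟨fun t => decide (Y t true = 1), fun d h1 h2 => ?_⟩
  have h3 := hA _ h2
  have h4 := hY d h1 h2 true
  unfold SG.Ok
  beta_reduce
  rw [← h4]
  cases G.tw d
  · simp
  · simp only [Bool.xor_self, Bool.xor_true]
    generalize Y (G.fc (G.r d)) false = a at h3 ⊢
    generalize Y (G.fc (G.r d)) true = b at h3 ⊢
    revert a b
    decide

theorem cuts_pf (hS : SheetStm) (hK : KeyStm) : CutsStm := by
  intro D T _ _ _ _ M G σ c k h hσ hD hW hc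
  refine ⟨fun X hX => ?_, ?_⟩
  · set Z := univ.filter fun d => ¬ (G.fc d ∈ X ↔ G.fc (G.r d) ∈ X) with hZ
    have hmem : ∀ d, d ∈ Z ↔ ¬ (G.fc d ∈ X ↔ G.fc (G.r d) ∈ X) := fun d => by simp [hZ]
    have hsub : Z ⊆ G.out X ∪ (G.out X).image G.r := fun d hd => by
      have h1 := (hmem d).1 hd
      by_cases h2 : G.fc d ∈ X
      · exact mem_union_left _ (mem_filter.2 ⟨mem_univ _, h2, by tauto⟩)
      · exact mem_union_right _ (mem_image.2 ⟨G.r d,
          mem_filter.2 ⟨mem_univ _, by tauto, by rwa [G.rr]⟩, G.rr d⟩)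
    have hcard : Z.card ≤ 2 * k := by
      have h1 := (card_le_card hsub).trans (card_union_le _ _)
      have h2 := card_image_le (s := G.out X) (f := G.r)
      omega
    obtain ⟨Y, h1, h2, h3⟩ := key_Cuts hK h hW Z (fun x => decide (G.fc x ∈ X)) (fun e => by
      rw [fc_mate_Cuts h, fc_tail_Cuts h]
      by_cases a : G.fc e.1 ∈ X <;> by_cases b : G.fc (G.r e.1) ∈ X <;> simp [hmem, a, b])
      ((Nat.pow_le_pow_right two_pos hcard).trans hc)
    have hv := conn_Cuts hσ hD (fun t => Y t false + Y t true + if t ∈ X then 1 else 0) fun d => by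
      by_cases hd : d ∈ Z
      · rw [h3 d hd]
        have h4 := (hmem d).1 hd
        generalize Y (G.fc d) false + Y (G.fc d) true = a
        by_cases a' : G.fc d ∈ X
        · rw [if_pos a', if_neg (by tauto), add_zero]
        · rw [if_neg a', if_pos (by tauto)]
          revert a
          decide
      · rw [h2 d hd]
        have h4 : G.fc d ∈ X ↔ G.fc (G.r d) ∈ X := not_not.1 fun h0 => hd ((hmem d).2 h0)
        simp only [h4]
    by_cases h5 : ∀ t ∈ X, Y t false + Y t true = 1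
    · exact Or.inl (bal_Cuts Y X h5 fun d a b => h1 d fun hd => (hmem d).1 hd (by tauto))
    · push Not at h5
      obtain ⟨t₀, ht₀, h5⟩ := h5
      refine Or.inr (bal_Cuts Y Xᶜ (fun t ht => ?_) fun d a b => h1 d fun hd =>
        (hmem d).1 hd (by rw [mem_compl] at a b; tauto))
      have h6 := hv t t₀
      rw [if_neg (mem_compl.1 ht), if_pos ht₀] at h6
      generalize Y t false + Y t true = a at h6 ⊢
      generalize Y t₀ false + Y t₀ true = b at h5 h6
      revert a b
      decide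
  · by_cases h0 : ∀ o : T → Bool, k ≤ (univ.filter fun d => ¬ G.Ok o d).card
    · exact Or.inr h0
    push Not at h0
    obtain ⟨o, ho⟩ := h0
    obtain ⟨γ, hγ⟩ := hS D M
    set Z := univ.filter fun d => ¬ G.Ok o d with hZ
    have hmem : ∀ d, d ∈ Z ↔ ¬ o (G.fc (G.r d)) = xor (o (G.fc d)) (G.tw d) := fun d => by
      simp only [hZ, mem_filter, mem_univ, true_and, SG.Ok]
    obtain ⟨Y, -, h2, h3⟩ := key_Cuts hK h hW Z (fun x => xor (o (G.fc x)) (γ x)) (fun e => by
      rw [fc_mate_Cuts h, fc_tail_Cuts h, hγ, ← h.2.1]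
      simp only [hmem]
      generalize o (G.fc (G.r e.1)) = a
      generalize o (G.fc e.1) = b
      generalize γ (M.tail e) = s
      generalize G.tw e.1 = w
      revert a b s w
      decide)
      ((Nat.pow_le_pow_right two_pos (by omega)).trans hc)
    refine Or.inl ⟨fun t => xor (o t) (decide (Y t false + Y t true = 1)), fun d => ?_⟩
    unfold SG.Ok
    beta_reduce
    by_cases hd : d ∈ Z
    · have h4 := (hmem d).1 hd
      rw [h3 d hd]
      generalize Y (G.fc d) false + Y (G.fc d) true = u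
      generalize o (G.fc (G.r d)) = a at h4 ⊢
      generalize o (G.fc d) = b at h4 ⊢
      generalize G.tw d = w at h4 ⊢
      revert u a b w
      decide
    · have h4 : o (G.fc (G.r d)) = xor (o (G.fc d)) (G.tw d) :=
        not_not.1 fun h0 => hd ((hmem d).2 h0)
      rw [h2 d hd, h4]
      generalize decide (Y (G.fc d) false + Y (G.fc d) true = 1) = u
      generalize o (G.fc d) = b
      generalize G.tw d = w
      revert u b w
      decide

end Pool.Agent.MP_9a3194_co.En
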