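import Mathlib

/-! Graphs cellularly embedded in closed surfaces, orientable or not: polygons glued in pairs. -/

namespace Pool.Agent.MP_9a3194_co.En

/-- Polygons whose sides `D` are glued in pairs. The cycles of `nxt` are the polygons (faces); the
side `d` runs from the corner `d` to the corner `nxt d`; it is glued to the side `α d`, preserving
this direction if `tw d` holds and reversing it otherwise. -/
structure Poly (D : Type) where
  nxt : Equiv.Perm D
  α : D → D
  tw : D → Bool
  αα : ∀ d, α (α d) = d
  αne : ∀ d, α d ≠ d
  twα : ∀ d, tw (α d) = tw d

namespace Poly

variable {D : Type} (M : Poly D)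

/-- the corner where a directed side starts (`false`: forwards, `true`: backwards) -/
def tail (e : D × Bool) : D := if e.2 then M.nxt e.1 else e.1

/-- the corner where a directed side ends -/
def head (e : D × Bool) : D := if e.2 then e.1 else M.nxt e.1

/-- the same directed edge as the side glued to it -/
def mate (e : D × Bool) : D × Bool := (M.α e.1, if M.tw e.1 then e.2 else !e.2)

/-- two corners lie at the same vertex -/
def Same : D → D → Prop :=
  Relation.EqvGen fun x y => ∃ e, x = M.tail e ∧ y = M.tail (M.mate e)

/-- a walk from the vertex of one corner to the vertex of another corner -/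
def Walk : D → List (D × Bool) → D → Prop
  | x, [], y => M.Same x y
  | x, e :: w, y => M.Same x (M.tail e) ∧ Walk (M.head e) w y

/-- the gluing of two sides, and the (iterated) boundary of a face -/
def rels : Set (FreeGroup D) :=
  {r | ∃ d, r = .of d * (if M.tw d then (.of (M.α d))⁻¹ else .of (M.α d)) ∨
    ∃ n : ℕ, (M.nxt ^ n) d = d ∧ r = ((List.range n).map fun i => .of ((M.nxt ^ i) d)).prod}

/-- the word is trivial modulo the gluings and the faces -/
def Contr (w : List (D × Bool)) : Prop :=
  (w.map fun e => if e.2 then (PresentedGroup.of (rels := M.rels) e.1)⁻¹
    else PresentedGroup.of e.1).prod = 1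

end Poly

end Pool.Agent.MP_9a3194_co.En
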