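import Pool.Agent.MP_9a3194_co.En.Stm

open Finset

namespace Pool.Agent.MP_9a3194_co.En

theorem switch_Fin {D T : Type} [Fintype D] [DecidableEq D] [Fintype T] [DecidableEq T]
    (hB : CoreBStm) {p q : ℕ} {σ : ℝ} (hpq : 2 * q < p) (hσ : (p : ℝ) ≤ σ * (p - 2 * q))
    (G : SG D T) (hG : G.Den σ) {o : T → Bool} (ho : ∀ d, G.Ok o d) : ∃ φ, G.Flow p q φ := by
  obtain ⟨φ, h1, h2, h3⟩ := hB p q σ hpq hσ D T
    ⟨G.r, fun _ => false, G.fc, G.rr, G.rne, fun _ => rfl⟩ (fun _ => rfl) hG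
  refine ⟨fun d => if o (G.fc d) then -φ d else φ d, fun d => ?_, fun d => ?_, fun t => ?_⟩
  · have e1 : φ (G.r d) = -φ d := h1 d
    have e2 : o (G.fc (G.r d)) = xor (o (G.fc d)) (G.tw d) := ho d
    simp only [e1, e2]
    cases o (G.fc d) <;> cases G.tw d <;> simp
  · have := h2 d
    beta_reduce
    split_ifs
    · rwa [abs_neg]
    · exact this
  · have e1 : ∑ d ∈ univ.filter (fun d => G.fc d = t), φ d = 0 := h3 t
    have e2 : G.dv (fun d => if o (G.fc d) then -φ d else φ d) t =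
        ∑ d ∈ univ.filter (fun d => G.fc d = t), (if o t then -1 else 1) * φ d :=
      sum_congr rfl fun d hd => by
        beta_reduce
        rw [(mem_filter.1 hd).2]
        split_ifs <;> simp
    rw [e2, ← mul_sum, e1, mul_zero]

theorem map_pf (hB : CoreBStm) (hU : CoreUStm) (hC : CutsStm) (hH : HeightStm) : MapStm := by
  classical
  intro p q σ hpq hσ
  obtain ⟨k, hk⟩ := hU p q σ hpq hσ
  refine ⟨2 ^ (2 * k), fun D _ _ M hD hW => ?_⟩
  let G : SG D (Quotient (Equiv.Perm.SameCycle.setoid M.nxt)) :=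
    ⟨M.α, M.tw, Quotient.mk _, M.αα, M.αne, M.twα⟩
  have hd : M.Dual G := ⟨fun _ => rfl, fun _ => rfl, fun _ _ => Quotient.eq,
    Quotient.mk_surjective⟩
  have hG : G.Den σ := fun π => by
    have h1 := hD (fun d => π (G.fc d)) fun d => congrArg π ((hd.2.2.1 _ _).2
      (Equiv.Perm.sameCycle_apply_left.2 (Equiv.Perm.SameCycle.refl _ _)))
    have h2 : (univ.image fun d => π (G.fc d)) = univ.image π := by
      ext n
      simp only [mem_image, mem_univ, true_and]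
      exact ⟨fun ⟨d, e⟩ => ⟨_, e⟩, fun ⟨t, e⟩ =>
        (hd.2.2.2 t).imp fun d e' => (congrArg π e').trans e⟩
    rw [h2] at h1
    exact h1
  have h0 : 0 < σ := by
    have h1 : (0 : ℝ) < p - 2 * q := by
      have : (2 * q : ℝ) < p := by exact_mod_cast hpq
      linarith
    exact (mul_pos_iff_of_pos_right h1).1 ((Nat.cast_nonneg p).trans_lt hσ)
  obtain ⟨h1, h2⟩ := hC D _ M G σ _ k hd h0 hG hW le_rfl
  obtain ⟨φ, f1, f2, f3⟩ : ∃ φ, G.Flow p q φ :=
    h2.elim (fun ⟨o, ho⟩ => switch_Fin hB hpq hσ.le G hG ho) fun h => hk D _ G hG h h1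
  exact ⟨φ, f1, f2, fun _ w _ hw => hH D _ M G φ hd f1 f3 w hw⟩

end Pool.Agent.MP_9a3194_co.En
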