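import Pool.Agent.MP_9a3194_co.En.Stm

open Finset

namespace Pool.Agent.MP_9a3194_co.En

theorem face_Height {D : Type} [Fintype D] (σ : Equiv.Perm D) (φ : D → ℤ) (K : Finset D) (d : D)
    (hK : ∀ x, x ∈ K ↔ σ.SameCycle d x) (h0 : ∑ x ∈ K, φ x = 0) (n : ℕ) (hn : (σ ^ n) d = d) :
    ∑ i ∈ range n, φ ((σ ^ i) d) = 0 := by
  have h1 : ∀ j : ℕ, ∑ i ∈ range n, φ ((σ ^ i) ((σ ^ j) d)) = ∑ i ∈ range n, φ ((σ ^ i) d) := by
    intro j
    induction j with
    | zero => simp
    | succ j ih =>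
      have a1 := sum_range_succ (fun i => φ ((σ ^ i) ((σ ^ j) d))) n
      have a2 := sum_range_succ' (fun i => φ ((σ ^ i) ((σ ^ j) d))) n
      have a3 : (σ ^ n) ((σ ^ j) d) = (σ ^ j) d := by
        rw [← Equiv.Perm.mul_apply, pow_mul_comm, Equiv.Perm.mul_apply, hn]
      have a4 : ∀ i : ℕ, (σ ^ i) ((σ ^ (j + 1)) d) = (σ ^ (i + 1)) ((σ ^ j) d) := fun i => by
        rw [← Equiv.Perm.mul_apply, ← Equiv.Perm.mul_apply, ← pow_add, ← pow_add]
        congr 2
        omega
      simp only [a3, pow_zero, Equiv.Perm.one_apply] at a1 a2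
      simp only [a4]
      linarith
  have h2 : ∑ x ∈ K, ∑ i ∈ range n, φ ((σ ^ i) x) = 0 := by
    rw [sum_comm]
    refine sum_eq_zero fun i _ => ?_
    rw [← h0]
    exact sum_equiv (σ ^ i) (fun x => by rw [hK, hK, Equiv.Perm.sameCycle_pow_right]) fun _ _ => rfl
  rw [sum_congr rfl (g := fun _ => ∑ i ∈ range n, φ ((σ ^ i) d)) (fun x hx => by
    obtain ⟨j, -, rfl⟩ := ((hK x).1 hx).exists_pow_eq'
    exact h1 j), sum_const, nsmul_eq_mul] at h2
  refine (mul_eq_zero.1 h2).resolve_left ?_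
  exact Nat.cast_ne_zero.2 (card_pos.2 ⟨d, (hK d).2 (Equiv.Perm.SameCycle.refl _ _)⟩).ne'

theorem height_pf : HeightStm := by
  intro D T _ _ _ _ M G φ hD h1 h2 w hw
  have h3 : ∀ r ∈ M.rels, FreeGroup.lift (fun d => Multiplicative.ofAdd (φ d)) r = 1 := by
    rintro r ⟨d, rfl | ⟨n, hn, rfl⟩⟩
    · have := h1 d
      rw [hD.1, hD.2.1] at this
      cases h : M.tw d <;> simp [h] at this ⊢ <;> rw [this] <;> simp
    · have h4 := face_Height M.nxt φ (univ.filter fun x => G.fc x = G.fc d) d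
        (fun x => by rw [mem_filter, ← hD.2.2.1, eq_comm]; simp) (h2 (G.fc d)) n hn
      have h5 : ∀ m : ℕ, FreeGroup.lift (fun d => Multiplicative.ofAdd (φ d))
          ((List.range m).map fun i => FreeGroup.of ((M.nxt ^ i) d)).prod =
          Multiplicative.ofAdd (∑ i ∈ range m, φ ((M.nxt ^ i) d)) := by
        intro m
        induction m with
        | zero => simp
        | succ m ih =>
          rw [List.range_succ, List.map_append, List.prod_append, map_mul, ih, sum_range_succ,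
            ofAdd_add]
          simp
      rw [h5, h4, ofAdd_zero]
  have h4 := congrArg (PresentedGroup.toGroup h3) hw
  rw [map_one, map_list_prod, List.map_map] at h4
  have h5 : ∀ w : List (D × Bool), (w.map (PresentedGroup.toGroup h3 ∘ fun e =>
      if e.2 then (PresentedGroup.of (rels := M.rels) e.1)⁻¹ else PresentedGroup.of e.1)).prod =
      Multiplicative.ofAdd (w.map fun e => if e.2 then -φ e.1 else φ e.1).sum := by
    intro w
    induction w with
    | nil => rfl
    | cons e w ih =>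
      rw [List.map_cons, List.prod_cons, ih, List.map_cons, List.sum_cons, ofAdd_add]
      congr 1
      cases h : e.2 <;> simp [h]
  rw [h5] at h4
  exact ofAdd_eq_one.1 h4

end Pool.Agent.MP_9a3194_co.En
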