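import Pool.Agent.MP_9a3194_co.En.Stm

open Finset

namespace Pool.Agent.MP_9a3194_co.En

variable {D T : Type} [Fintype D] [DecidableEq D] [Fintype T] [DecidableEq T] (G : SG D T)

omit [DecidableEq D] [Fintype T] in
theorem mem_Hof {X : Finset T} {d : D} : d ∈ G.out X ↔ G.fc d ∈ X ∧ G.fc (G.r d) ∉ X := by
  simp [SG.out]

omit [DecidableEq D] [Fintype T] in
theorem sum_Hof {R : Type} [AddCommGroup R] (x : D → R) (hx : ∀ d, x (G.r d) = -x d)
    (X : Finset T) : ∑ t ∈ X, G.dv x t = ∑ d ∈ G.out X, x d := by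
  simp only [SG.dv]
  rw [sum_fiberwise_eq_sum_filter, ← sum_filter_add_sum_filter_not _ fun d => G.fc (G.r d) ∈ X,
    filter_filter, filter_filter, sum_involution (fun d _ => G.r d) (fun d _ => by simp [hx])
      (fun d _ _ => G.rne d) (fun d h => by simpa [G.rr, and_comm] using h) fun d _ => G.rr d,
    zero_add]
  rfl

/-- antisymmetric, of the parity of `κ`, bounded by `κ` -/
def Box_Hof (κ : ℤ) (x : D → ℤ) : Prop :=
  (∀ d, x (G.r d) = -x d) ∧ ∀ d, (x d - κ) % 2 = 0 ∧ -κ ≤ x d ∧ x d ≤ κ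

theorem grow_Hof (κ : ℤ) (φ : D → ℤ) (hφ : Box_Hof G κ φ) (v0 : T) :
    ∃ X : Finset T, v0 ∈ X ∧ (∀ d ∈ G.out X, φ d = κ) ∧ ∀ w ∈ X, ∃ ψ, Box_Hof G κ ψ ∧
      ∀ v, G.dv ψ v = G.dv φ v + (if v = v0 then 2 else 0) - (if v = w then 2 else 0) := by
  classical
  let P : Finset T → Prop := fun X => v0 ∈ X ∧ ∀ w ∈ X, ∃ ψ, Box_Hof G κ ψ ∧
      (∀ d, ¬ (G.fc d ∈ X ∧ G.fc (G.r d) ∈ X) → ψ d = φ d) ∧
      ∀ v, G.dv ψ v = G.dv φ v + (if v = v0 then 2 else 0) - (if v = w then 2 else 0)
  have hP0 : P {v0} := by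
    refine ⟨mem_singleton_self _, fun w hw => ⟨φ, hφ, fun _ _ => rfl, fun v => ?_⟩⟩
    rw [mem_singleton.1 hw]
    ring
  obtain ⟨X, hX, hmax⟩ := exists_max_image (univ.filter P) card
    ⟨{v0}, mem_filter.2 ⟨mem_univ _, hP0⟩⟩
  obtain ⟨hv0, hX⟩ := (mem_filter.1 hX).2
  refine ⟨X, hv0, fun e he => ?_, fun w hw => (hX w hw).imp fun ψ h => ⟨h.1, h.2.2⟩⟩
  by_contra hne
  obtain ⟨he1, he2⟩ := (mem_Hof G).1 he
  have hre := G.rne e
  have hP1 : P (insert (G.fc (G.r e)) X) := by
    refine ⟨mem_insert_of_mem hv0, fun w hw => ?_⟩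
    rcases mem_insert.1 hw with rfl | hw
    · obtain ⟨ψ, ⟨h1, h2⟩, h3, h4⟩ := hX _ he1
      have hψe : ψ e = φ e := h3 e fun h => he2 h.2
      refine ⟨fun d => ψ d + (if d = e then 2 else 0) - (if d = G.r e then 2 else 0),
        ⟨fun d => ?_, fun d => ?_⟩, fun d hd => ?_, fun v => ?_⟩
      · have a1 : (G.r d = e) ↔ d = G.r e := ⟨fun h => by rw [← h, G.rr], fun h => by rw [h, G.rr]⟩
        have a2 : (G.r d = G.r e) ↔ d = e :=
          ⟨fun h => by rw [← G.rr d, h, G.rr], fun h => by rw [h]⟩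
        simp only [a1, a2, h1 d]
        ring
      · have b1 := h2 d
        have b2 := h2 e
        by_cases a1 : d = e
        · simp only [a1, if_true, if_neg hre.symm]
          omega
        · by_cases a2 : d = G.r e
          · simp only [a2, if_true, if_neg hre, h1 e]
            omega
          · simp only [if_neg a1, if_neg a2]
            omega
      · have a1 : d ≠ e := by
          rintro rfl
          exact hd ⟨mem_insert_of_mem he1, mem_insert_self _ _⟩
        have a2 : d ≠ G.r e := by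
          rintro rfl
          exact hd ⟨mem_insert_self _ _, by rw [G.rr]; exact mem_insert_of_mem he1⟩
        simp only [if_neg a1, if_neg a2]
        rw [h3 d fun h => hd ⟨mem_insert_of_mem h.1, mem_insert_of_mem h.2⟩]
        ring
      · have h5 := h4 v
        simp only [SG.dv, sum_sub_distrib, sum_add_distrib, sum_ite_eq', mem_filter, mem_univ,
          true_and, eq_comm (b := v)] at h5 ⊢
        rw [h5]
        ring
    · obtain ⟨ψ, h1, h3, h4⟩ := hX w hw
      exact ⟨ψ, h1, fun d hd => h3 d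
        fun h => hd ⟨mem_insert_of_mem h.1, mem_insert_of_mem h.2⟩, h4⟩
  have := hmax _ (mem_filter.2 ⟨mem_univ _, hP1⟩)
  rw [card_insert_of_notMem he2] at this
  omega

theorem step_Hof (κ : ℤ) (β : T → ℤ) (htot : ∑ v, β v = 0)
    (hcut : ∀ X : Finset T, ∑ v ∈ X, β v ≤ κ * (G.out X).card)
    (hpar : ∀ φ, Box_Hof G κ φ → ∀ v, (G.dv φ v - β v) % 2 = 0) (n : ℕ) :
    ∀ φ, Box_Hof G κ φ → ∑ v, (G.dv φ v - β v).natAbs = n →
      ∃ φ, Box_Hof G κ φ ∧ ∀ v, G.dv φ v = β v := by
  induction n using Nat.strong_induction_on with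
  | _ n ih =>
    intro φ hφ hn
    by_cases hex : ∃ v0, G.dv φ v0 < β v0
    · obtain ⟨v0, hv0⟩ := hex
      obtain ⟨X, hX0, hout, hX⟩ := grow_Hof G κ φ hφ v0
      by_cases hw : ∃ w ∈ X, β w < G.dv φ w
      · obtain ⟨w, hwX, hw⟩ := hw
        obtain ⟨ψ, h1, h4⟩ := hX w hwX
        have hne : v0 ≠ w := by
          rintro rfl
          omega
        refine ih _ ?_ ψ h1 rfl
        rw [← hn]
        refine sum_lt_sum (fun v _ => ?_) ⟨v0, mem_univ _, ?_⟩
        · rw [h4 v]
          have := hpar φ hφ v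
          by_cases a1 : v = v0
          · subst a1
            simp only [if_true, if_neg hne]
            omega
          · by_cases a2 : v = w
            · subst a2
              simp only [if_true, if_neg a1]
              omega
            · simp only [if_neg a1, if_neg a2]
              omega
        · rw [h4 v0]
          have := hpar φ hφ v0
          simp only [if_true, if_neg hne]
          omega
      · push Not at hw
        have h1 : ∑ v ∈ X, G.dv φ v < ∑ v ∈ X, β v := sum_lt_sum hw ⟨v0, hX0, hv0⟩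
        rw [sum_Hof G φ hφ.1, sum_congr rfl hout, sum_const, nsmul_eq_mul, mul_comm] at h1
        exact absurd (hcut X) (not_le.2 h1)
    · push Not at hex
      refine ⟨φ, hφ, fun v => ((sum_eq_sum_iff_of_le fun v _ => hex v).1 ?_ v (mem_univ _)).symm⟩
      rw [htot, sum_Hof G φ hφ.1, sum_eq_zero fun d h => absurd (mem_univ _) ((mem_Hof G).1 h).2]

theorem hof_pf : HofStm := by
  intro D T _ _ _ _ G ht κ x₀ C ε h0 h1 r0 rC ev hC hd
  have a0 : ∀ d, x₀ (G.r d) = -x₀ d := fun d => by simpa [ht] using r0 d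
  have aC : ∀ d, C (G.r d) = -C d := fun d => by simpa [ht] using rC d
  let e := Fintype.equivFin D
  obtain ⟨x, ⟨b1, b2⟩, b3⟩ := step_Hof G κ (G.dv x₀) (by
      rw [sum_Hof G x₀ a0, sum_eq_zero fun d h => absurd (mem_univ _) ((mem_Hof G).1 h).2])
    (fun X => by
      have c1 : ((∑ v ∈ X, G.dv x₀ v : ℤ) : ℝ) ≤ (G.out X).card * (κ + ε) := by
        rw [Int.cast_sum, sum_congr rfl fun t _ => hd t, sum_Hof G C aC, ← nsmul_eq_mul]
        exact sum_le_card_nsmul _ _ _ fun d _ => (le_abs_self _).trans (hC d)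
      have c2 : ((G.out X).card : ℝ) ≤ Fintype.card D := by exact_mod_cast card_le_univ _
      have c3 : ((∑ v ∈ X, G.dv x₀ v : ℤ) : ℝ) < ((κ * (G.out X).card + 1 : ℤ) : ℝ) := by
        push_cast at c1 ⊢
        nlinarith [mul_le_mul_of_nonneg_left c2 h0]
      exact Int.lt_add_one_iff.1 (Int.cast_lt.1 c3))
    (fun φ hφ v => by
      rw [SG.dv, SG.dv, ← sum_sub_distrib]
      refine Int.emod_eq_zero_of_dvd (dvd_sum fun d _ => ?_)
      have := (hφ.2 d).1
      have := Int.even_iff.1 (ev d)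
      omega)
    _ (fun d => if e d < e (G.r d) then κ else -κ) ⟨fun d => by
      have hne : e (G.r d) ≠ e d := fun hh => G.rne d (e.injective hh)
      simp only [G.rr]
      rcases lt_or_gt_of_ne hne with h | h
      · rw [if_pos h, if_neg (not_lt.2 h.le), neg_neg]
      · rw [if_neg (not_lt.2 h.le), if_pos h], fun d => by
      simp only
      split_ifs <;> omega⟩ rfl
  exact ⟨x, fun d => by simp [ht, b1], fun d => Int.even_iff.2 (b2 d).1,
    fun d => abs_le.2 (b2 d).2, b3⟩

end Pool.Agent.MP_9a3194_co.En
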