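import Pool.Agent.MP_9a3194_co.En.Stm

open Finset

namespace Pool.Agent.MP_9a3194_co.En

theorem ori_Key {D : Type} [Fintype D] (r : D → D) (h1 : ∀ d, r (r d) = d) (h2 : ∀ d, r d ≠ d) :
    ∃ o : D → Bool, ∀ d, o (r d) = !o d := by
  refine ⟨fun d => decide (Fintype.equivFin D d < Fintype.equivFin D (r d)), fun d => ?_⟩
  have := (Fintype.equivFin D).injective.ne (h2 d)
  simp only
  rw [h1, ← decide_not, decide_eq_decide, not_lt]
  exact ⟨le_of_lt, fun h => lt_of_le_of_ne h this⟩

section
variable {D : Type} (M : Poly D)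

theorem mate_Key (e : D × Bool) : M.mate (M.mate e) = e := by
  obtain ⟨d, b⟩ := e
  simp only [Poly.mate, M.αα, M.twα]
  cases M.tw d <;> simp

/-- the gluing on the double cover -/
def al_Key (e : D × Bool) : D × Bool := (M.α e.1, xor e.2 (M.tw e.1))

theorem alal_Key (e : D × Bool) : al_Key M (al_Key M e) = e := by
  simp [al_Key, M.αα, M.twα]

theorem aleq_Key (e f : D × Bool) : al_Key M e = f ↔ e = al_Key M f :=
  ⟨fun h => by rw [← h, alal_Key], fun h => by rw [h, alal_Key]⟩

/-- the indicator of an edge of the double cover -/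
def lift_Key [DecidableEq D] (e : D × Bool) : D × Bool → ZMod 2 :=
  fun f => (if e = f then 1 else 0) + if al_Key M e = f then 1 else 0

/-- boundaries of unions of faces of the double cover -/
def bd_Key : Submodule (ZMod 2) (D × Bool → ZMod 2) where
  carrier := {z | ∃ y : D × Bool → ZMod 2, (∀ d b, y (M.nxt d, b) = y (d, b)) ∧
    ∀ e, z e = y e + y (al_Key M e)}
  add_mem' := by
    rintro z z' ⟨y, a, b⟩ ⟨y', a', b'⟩
    exact ⟨y + y', fun d c => by simp [a, a'], fun e => by
      simp only [Pi.add_apply, b, b']; ring⟩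
  zero_mem' := ⟨0, fun _ _ => rfl, fun _ => by simp⟩
  smul_mem' := by
    rintro r z ⟨y, a, b⟩
    exact ⟨r • y, fun d c => by simp [a], fun e => by simp [b, mul_add]⟩

theorem face_Key [DecidableEq D] (d : D) (n : ℕ) (s : Bool) (h : (M.nxt ^ n) d = d) :
    ∑ i ∈ range n, lift_Key M ((M.nxt ^ i) d, s) ∈ bd_Key M := by
  refine ⟨fun e => ∑ i ∈ range n, if ((M.nxt ^ i) d, s) = e then 1 else 0, fun d1 b => ?_,
    fun e => ?_⟩
  · have h1 := sum_range_succ
      (fun i => if ((M.nxt ^ i) d, s) = (M.nxt d1, b) then (1 : ZMod 2) else 0) n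
    rw [sum_range_succ', h, pow_zero, Equiv.Perm.one_apply, add_left_inj] at h1
    refine h1.symm.trans ?_
    simp [pow_succ']
  · simp only [Finset.sum_apply, lift_Key, sum_add_distrib, aleq_Key]

end

theorem key_pf (hS : SheetStm) (hP : PotStm) (hA : ActStm) : KeyStm := by
  intro D _ _ M c hW Z g hg hc
  obtain ⟨γ, hγ⟩ := hS D M
  obtain ⟨h, h1, h2⟩ := hP D M c hW Z hc
  obtain ⟨ob, hob⟩ := ori_Key M.α M.αα M.αne
  have two : ∀ ζ : (D × Bool → ZMod 2) ⧸ bd_Key M, ζ + ζ = 0 := fun ζ => by
    rw [← two_smul (ZMod 2), show (2 : ZMod 2) = 0 from rfl, zero_smul]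
  obtain ⟨sh, ζ, hζ⟩ := hA D M _ γ (fun d s => (bd_Key M).mkQ (lift_Key M (d, s))) hγ two
    (fun d s => congrArg _ (funext fun f => by
      show lift_Key M (al_Key M (d, s)) f = _
      simp only [lift_Key, alal_Key, add_comm]))
    fun d n s hd => by
      rw [← map_sum]
      exact (Submodule.Quotient.mk_eq_zero _).2 (face_Key M d n s hd)
  have hZ : ∀ d, M.α d ∈ Z ↔ d ∈ Z := fun d => by
    have a := hg (d, false)
    have b := hg (M.mate (d, false))
    rw [mate_Key, Bool.xor_comm, a, decide_eq_decide] at b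
    exact b.symm
  let G : D → (D × Bool → ZMod 2) ⧸ bd_Key M := fun x => if g x then ζ (h x) else 0
  have hG : ∀ e, G (M.tail (M.mate e)) + G (M.tail e) =
      if e.1 ∈ Z then ζ (h (M.tail e)) else 0 := fun e => by
    have a := hg e
    have b := h1 _ _ (Relation.EqvGen.rel _ _ ⟨e, rfl, rfl⟩)
    simp only [G, ← b]
    by_cases k : e.1 ∈ Z <;> cases p : g (M.tail (M.mate e)) <;> cases q : g (M.tail e) <;>
      simp_all
  let s : D → Bool := fun d => xor (sh (h d)) (γ d)
  let z1 := ∑ d, if ob d = true ∧ d ∈ Z then lift_Key M (d, s d) else 0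
  have hz : z1 ∈ bd_Key M := by
    refine (Submodule.Quotient.mk_eq_zero _).1 ?_
    have e1 : (bd_Key M).mkQ z1 = ∑ e : D × Bool,
        if ob e.1 then G (M.tail (M.mate e)) + G (M.tail e) else 0 := by
      rw [map_sum, Fintype.sum_prod_type]
      refine sum_congr rfl fun d _ => ?_
      simp only [hG, Fintype.sum_bool]
      by_cases a : ob d = true <;> by_cases b : d ∈ Z <;>
        simp only [a, b, and_self, and_true, and_false, if_true, if_false, map_zero, add_zero,
          Bool.false_eq_true]
      show _ = ζ (h (M.nxt d)) + ζ (h d)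
      rw [← h2 d b, hζ, add_right_comm, two, zero_add]
    have e2 : ∑ e : D × Bool, (if ob e.1 then G (M.tail (M.mate e)) else 0) =
        ∑ e : D × Bool, if ob e.1 then 0 else G (M.tail e) := by
      refine Fintype.sum_equiv (Function.Involutive.toPerm _ (mate_Key M)) _ _ fun e => ?_
      show _ = if ob (M.α e.1) then 0 else G (M.tail (M.mate e))
      rw [hob]
      cases ob e.1 <;> rfl
    have e3 : ∑ e : D × Bool, G (M.tail e) = 0 := by
      rw [Fintype.sum_prod_type]
      simp only [Fintype.sum_bool, sum_add_distrib]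
      show ∑ d, G (M.nxt d) + ∑ d, G d = 0
      rw [Equiv.sum_comp M.nxt G, two]
    show (bd_Key M).mkQ z1 = 0
    rw [e1]
    refine Eq.trans ?_ e3
    calc _ = ∑ e : D × Bool, (if ob e.1 then G (M.tail (M.mate e)) else 0) +
          ∑ e : D × Bool, (if ob e.1 then G (M.tail e) else 0) := by
          rw [← sum_add_distrib]
          exact sum_congr rfl fun e _ => by cases ob e.1 <;> simp
      _ = _ := by
          rw [e2, ← sum_add_distrib]
          exact sum_congr rfl fun e _ => by cases ob e.1 <;> simp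
  obtain ⟨y, y1, y2⟩ := hz
  have hv : ∀ e, z1 e = ∑ d, if ob d = true ∧ d ∈ Z then lift_Key M (d, s d) e else 0 :=
    fun e => by simp only [z1, Finset.sum_apply, ite_apply, Pi.zero_apply]
  refine ⟨fun d b => y (d, b), y1, fun d hd b => ?_, fun d hd => ?_⟩
  · have a : z1 (d, b) = 0 := by
      rw [hv]
      refine sum_eq_zero fun x _ => ite_eq_right_iff.2 fun k => ?_
      have p : x ≠ d := fun e => hd (e ▸ k.2)
      have q : M.α x ≠ d := fun e => hd (e ▸ (hZ x).2 k.2)
      simp [lift_Key, al_Key, p, q]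
    rw [y2] at a
    exact (CharTwo.add_eq_zero.1 a).symm
  · have a : z1 (d, false) + z1 (d, true) = 1 := by
      rw [hv, hv, ← sum_add_distrib]
      have b : ∀ x, ((if ob x = true ∧ x ∈ Z then lift_Key M (x, s x) (d, false) else 0) +
          if ob x = true ∧ x ∈ Z then lift_Key M (x, s x) (d, true) else 0) =
          (if x = d then (if ob d then 1 else 0) else 0) +
            if x = M.α d then (if ob d then 0 else 1) else 0 := fun x => by
        have n := M.αne d
        by_cases p : x = d
        · subst p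
          simp only [lift_Key, al_Key, Prod.mk.injEq, n, n.symm, hd]
          cases ob x <;> cases s x <;> simp
        · by_cases q : x = M.α d
          · subst q
            simp only [lift_Key, al_Key, Prod.mk.injEq, n, M.αα, (hZ d).2 hd, hob]
            cases ob d <;> cases s (M.α d) <;> cases M.tw (M.α d) <;> simp
          · have r : M.α x ≠ d := fun e => q (by rw [← e, M.αα])
            simp [lift_Key, al_Key, p, q, r]
      simp only [b, sum_add_distrib, sum_ite_eq', mem_univ, if_true]
      cases ob d <;> simp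
    rw [y2, y2] at a
    rw [← a]
    simp only [al_Key]
    cases M.tw d <;> simp <;> ring

end Pool.Agent.MP_9a3194_co.En
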