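import Pool.Agent.MP_9a3194_co.En.Stm

/-! The sharp lattice lemma: weights with small leverages, and a point of least energy. -/

open Finset

namespace Pool.Agent.MP_9a3194_co.En

open Matrix

/-- weighted Gram matrix of integer vectors -/
noncomputable def gram {T E : Type} [Fintype E] (b : E → T → ℤ) (c : E → ℝ) : Matrix T T ℝ :=
  ∑ e, c e • Matrix.vecMulVec (fun t => (b e t : ℝ)) fun t => (b e t : ℝ)

variable {T E : Type} [Fintype T] [DecidableEq T] [Fintype E] [DecidableEq E]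

omit [DecidableEq E] in
private theorem basis_Lat (b : E → T → ℤ) (h : ann b univ = ⊥) :
    ∃ B : T → E, (Matrix.of fun s t => (b (B s) t : ℝ)).det ≠ 0 := by
  have h1 : Submodule.span ℝ (Set.range fun e t => (b e t : ℝ)) = ⊤ := by
    by_contra h2
    obtain ⟨f, f0, hf⟩ := Submodule.exists_dual_map_eq_bot_of_lt_top (Ne.lt_top h2) inferInstance
    have h3 : (fun t => f fun j => if t = j then 1 else 0) ∈ ann b univ := fun e _ => by
      have : f (fun t => (b e t : ℝ)) = 0 := by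
        rw [← Submodule.mem_bot ℝ, ← hf]
        exact Submodule.mem_map_of_mem (Submodule.subset_span ⟨e, rfl⟩)
      rwa [LinearMap.pi_apply_eq_sum_univ] at this
    rw [h, Submodule.mem_bot] at h3
    refine f0 (LinearMap.ext fun x => ?_)
    rw [LinearMap.pi_apply_eq_sum_univ]
    exact Finset.sum_eq_zero fun t _ => by rw [congrFun h3 t, Pi.zero_apply, smul_zero]
  obtain ⟨κ, c, -, h2, h3⟩ := exists_linearIndependent' ℝ fun e t => (b e t : ℝ)
  rw [h1] at h2
  let e := (Pi.basisFun ℝ T).indexEquiv (Module.Basis.mk h3 h2.ge)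
  refine ⟨fun t => c (e t), ?_⟩
  have h4 := h3.comp e e.injective
  exact ((Matrix.isUnit_iff_isUnit_det _).1
    (Matrix.linearIndependent_rows_iff_isUnit.1 h4)).ne_zero

/-- a cheap basis -/
theorem prim2 (b : E → T → ℤ) (a : E → ℝ) (ha : ∀ e, 0 ≤ a e)
    (hr : ∀ F : Finset E, (Module.finrank ℝ (ann b F) : ℝ) ≤ ∑ e ∈ Fᶜ, a e) (k : E → ℕ) :
    ∃ B : T → E, (Matrix.of fun s t => b (B s) t).det ≠ 0 ∧
      ∑ t, (k (B t) : ℝ) ≤ ∑ e, a e * k e := by
  classical
  have h0 : ann b univ = ⊥ := by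
    have := hr univ
    rw [compl_univ, sum_empty] at this
    exact Submodule.finrank_eq_zero.1 (by exact_mod_cast le_antisymm this (Nat.cast_nonneg _))
  obtain ⟨B₀, hB₀⟩ := basis_Lat b h0
  obtain ⟨B, hB, hmin⟩ := Finset.exists_min_image
    (univ.filter fun B : T → E => (Matrix.of fun s t => (b (B s) t : ℝ)).det ≠ 0)
    (fun B => ∑ t, k (B t)) ⟨B₀, by simpa using hB₀⟩
  obtain ⟨M, hM⟩ : ∃ M : Matrix T T ℝ, M = Matrix.of fun s t => (b (B s) t : ℝ) := ⟨_, rfl⟩
  have hd : M.det ≠ 0 := hM ▸ (mem_filter.1 hB).2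
  refine ⟨B, fun h => hd ?_, ?_⟩
  · have := Int.cast_det (R := ℝ) (Matrix.of fun s t => b (B s) t)
    rw [h, Int.cast_zero] at this
    rw [hM]
    exact this.symm
  have ex : ∀ e t, ∑ s, (b e s : ℝ) * M⁻¹ s t ≠ 0 → k (B t) ≤ k e := fun e t h => by
    have h1 : (fun s => (b e s : ℝ)) = ∑ u, (∑ s, (b e s : ℝ) * M⁻¹ s u) • M u := by
      have := Matrix.vecMul_vecMul (fun s => (b e s : ℝ)) M⁻¹ M
      rw [Matrix.nonsing_inv_mul _ hd.isUnit, Matrix.vecMul_one, Matrix.vecMul_eq_sum] at this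
      exact this.symm
    have h2 : (Matrix.of fun s u => (b (Function.update B t e s) u : ℝ)) =
        M.updateRow t fun s => (b e s : ℝ) := by
      ext s u
      by_cases hs : s = t
      · simp [hs]
      · simp [hs, hM]
    have h3 := hmin (Function.update B t e) (by
      rw [mem_filter, h2, h1, Matrix.det_updateRow_sum]
      exact ⟨mem_univ _, smul_ne_zero h hd⟩)
    have h4 : ∑ s, k (Function.update B t e s) =
        ∑ s, Function.update (fun s => k (B s)) t (k e) s :=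
      Finset.sum_congr rfl fun s _ => by by_cases hs : s = t <;> simp [hs]
    rw [h4, Finset.sum_update_of_mem (mem_univ t), ← Finset.add_sum_erase _ _ (mem_univ t),
      sdiff_singleton_eq_erase] at h3
    omega
  have key : ∀ j : ℕ, ∑ t, (if j < k (B t) then (1 : ℝ) else 0) ≤
      ∑ e, a e * (if j < k e then 1 else 0) := fun j => by
    have h1 : ∀ t : {t // j < k (B t)}, M⁻¹.col t.1 ∈ ann b (univ.filter fun e => j < k e)ᶜ :=
      fun t e he => by
        by_contra h
        have h2 := ex e t.1 h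
        have h3 := t.2
        simp only [mem_compl, mem_filter, mem_univ, true_and] at he
        omega
    have h2 : LinearIndependent ℝ fun t : {t // j < k (B t)} =>
        (⟨_, h1 t⟩ : ann b (univ.filter fun e => j < k e)ᶜ) :=
      LinearIndependent.of_comp (Submodule.subtype _)
        ((Matrix.linearIndependent_cols_iff_isUnit.2 (Matrix.isUnit_nonsing_inv_iff.2
          ((Matrix.isUnit_iff_isUnit_det _).2 hd.isUnit))).comp _ Subtype.val_injective)
    have h3 := h2.fintype_card_le_finrank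
    have h4 := hr (univ.filter fun e => j < k e)ᶜ
    rw [Fintype.card_subtype] at h3
    rw [compl_compl, sum_filter] at h4
    rw [Finset.sum_boole]
    refine ((Nat.cast_le.2 h3).trans h4).trans (le_of_eq ?_)
    simp
  obtain ⟨K, hK⟩ : ∃ K, ∀ e, k e ≤ K := ⟨univ.sup k, fun e => Finset.le_sup (f := k) (mem_univ e)⟩
  have hk : ∀ e, (k e : ℝ) = ∑ j ∈ range K, if j < k e then (1 : ℝ) else 0 := fun e => by
    rw [Finset.sum_boole]
    have : ((range K).filter fun j => j < k e) = range (k e) := by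
      ext j
      have := hK e
      simp only [mem_filter, mem_range]
      omega
    rw [this, card_range]
  simp only [hk, Finset.mul_sum]
  rw [Finset.sum_comm, Finset.sum_comm (s := (univ : Finset E))]
  exact Finset.sum_le_sum fun j _ => key j


private theorem det_rank_one_Lat {A : Matrix T T ℝ} (hA : IsUnit A.det) (c : ℝ) (b : T → ℝ) :
    (A + c • vecMulVec b b).det = A.det * (1 + c * (b ⬝ᵥ A⁻¹ *ᵥ b)) := by
  have h1 : c • vecMulVec b b = replicateCol Unit (c • b) * replicateRow Unit b := by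
    rw [← vecMulVec_eq]
    ext i j
    simp [vecMulVec_apply, mul_assoc]
  rw [h1, det_add_replicateCol_mul_replicateRow hA, det_unique (n := Unit), Matrix.add_apply,
    Matrix.one_apply_eq, Matrix.mul_assoc, ← replicateCol_mulVec,
    replicateRow_mul_replicateCol_apply, mulVec_smul, dotProduct_smul, smul_eq_mul]

omit [DecidableEq T] in
private theorem psd_Lat {c : ℝ} (hc : 0 ≤ c) (b : T → ℝ) : (c • vecMulVec b b).PosSemidef := by
  have h := posSemidef_vecMulVec_self_star b
  rw [star_trivial] at h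
  exact h.smul hc

omit [Fintype E] in
private theorem add_edges_Lat {A : Matrix T T ℝ} (hA : A.PosDef) (c : E → ℝ)
    (hc : ∀ e, 0 < c e) (b : E → T → ℝ) (s : Finset E) :
    (A + ∑ e ∈ s, c e • vecMulVec (b e) (b e)).PosDef ∧
      A.det ≤ (A + ∑ e ∈ s, c e • vecMulVec (b e) (b e)).det := by
  induction s using Finset.induction_on with
  | empty => simpa using hA
  | insert e s he ih =>
    rw [Finset.sum_insert he, add_comm (c e • _), ← add_assoc]
    refine ⟨ih.1.add_posSemidef (psd_Lat (hc e).le _), ih.2.trans ?_⟩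
    rw [det_rank_one_Lat (isUnit_iff_ne_zero.2 ih.1.det_pos.ne')]
    have h1 := ih.1.inv.posSemidef.dotProduct_mulVec_nonneg (b e)
    rw [star_trivial] at h1
    have h2 := mul_nonneg (hc e).le h1
    exact le_mul_of_one_le_right ih.1.det_pos.le (by linarith)

theorem gram_basis (b : E → T → ℤ) (c : E → ℝ) (hc : ∀ e, 0 < c e) (B : T → E)
    (hB : (Matrix.of fun s t => b (B s) t).det ≠ 0) :
    (gram b c).PosDef ∧ ∏ t, c (B t) ≤ (gram b c).det := by
  have hinj : Function.Injective B := fun s t e => by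
    by_contra hne
    exact hB (det_zero_of_row_eq hne (funext fun x => by simp [e]))
  let M : Matrix T T ℝ := Matrix.of fun s t => (b (B s) t : ℝ)
  have hM : M.det = ((Matrix.of fun s t => b (B s) t).det : ℤ) := by
    rw [Int.cast_det]
    rfl
  have h1 : 1 ≤ M.det * M.det := by
    rw [hM, ← Int.cast_mul]
    exact_mod_cast Int.add_one_le_of_lt (mul_self_pos.2 hB)
  have hBu : IsUnit M := (isUnit_iff_isUnit_det M).2 (isUnit_iff_ne_zero.2 fun h => by
    rw [h] at h1
    norm_num at h1)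
  have hP : (Mᴴ * diagonal (fun t => c (B t)) * M).PosDef :=
    (PosDef.diagonal fun t => hc (B t)).conjTranspose_mul_mul_same
      (mulVec_injective_iff_isUnit.2 hBu)
  have hD : ∏ t, c (B t) ≤ (Mᴴ * diagonal (fun t => c (B t)) * M).det := by
    rw [det_mul, det_mul, det_conjTranspose, star_trivial, det_diagonal, mul_right_comm]
    exact le_mul_of_one_le_left (Finset.prod_nonneg fun t _ => (hc _).le) h1
  have hS : Mᴴ * diagonal (fun t => c (B t)) * M =
      ∑ s, c (B s) • vecMulVec (fun t => (b (B s) t : ℝ)) fun t => (b (B s) t : ℝ) := by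
    ext i j
    rw [Matrix.mul_apply, Matrix.sum_apply]
    refine Finset.sum_congr rfl fun t _ => ?_
    rw [mul_diagonal, conjTranspose_apply, star_trivial, Matrix.smul_apply, vecMulVec_apply,
      smul_eq_mul]
    simp only [M, of_apply]
    ring
  have hL : gram b c = Mᴴ * diagonal (fun t => c (B t)) * M + ∑ e ∈ (univ.image B)ᶜ,
      c e • vecMulVec (fun t => (b e t : ℝ)) fun t => (b e t : ℝ) := by
    rw [hS, gram, ← Finset.sum_add_sum_compl (univ.image B), Finset.sum_image hinj.injOn]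
  have := add_edges_Lat hP c hc (fun e t => (b e t : ℝ)) (univ.image B)ᶜ
  rw [hL]
  exact ⟨this.1, hD.trans this.2⟩

theorem gram_upd (b : E → T → ℤ) (c : E → ℝ) (h : (gram b c).PosDef) (e : E) (δ : ℝ) :
    (gram b (Function.update c e (c e * (1 - δ)))).det = (gram b c).det *
      (1 - δ * (c e * ((fun t => (b e t : ℝ)) ⬝ᵥ (gram b c)⁻¹ *ᵥ fun t => (b e t : ℝ)))) := by
  have h1 : gram b (Function.update c e (c e * (1 - δ))) = gram b c +
      (-(δ * c e)) • vecMulVec (fun t => (b e t : ℝ)) fun t => (b e t : ℝ) := by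
    rw [gram, gram, ← Finset.add_sum_erase _ _ (Finset.mem_univ e),
      ← Finset.add_sum_erase _ _ (Finset.mem_univ e), Function.update_self, add_right_comm,
      ← add_smul, show c e + -(δ * c e) = c e * (1 - δ) by ring]
    congr 1
    exact Finset.sum_congr rfl fun x hx => by rw [Function.update_of_ne (Finset.ne_of_mem_erase hx)]
  rw [h1, det_rank_one_Lat (isUnit_iff_ne_zero.2 h.det_pos.ne'), neg_mul, ← sub_eq_add_neg,
    mul_assoc]

omit [DecidableEq T] [DecidableEq E] in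
theorem gram_mulVec (b : E → T → ℤ) (c : E → ℝ) (φ : T → ℝ) (t : T) :
    (gram b c *ᵥ φ) t = ∑ e, c e * (∑ s, (b e s : ℝ) * φ s) * b e t := by
  have h0 : ∀ (a : T → ℝ) (s : T), (vecMulVec a a *ᵥ φ) s = (a ⬝ᵥ φ) * a s := by
    intro a s
    rw [vecMulVec_mulVec]
    simp [mul_comm]
  simp only [gram, sum_mulVec, smul_mulVec, Finset.sum_apply, Pi.smul_apply, h0, smul_eq_mul,
    mul_assoc, dotProduct]

omit [Fintype E] [DecidableEq E] [DecidableEq T] in
private lemma symm_Lat (M : Matrix T T ℝ) (hM : M.IsHermitian) (x y : T → ℝ) :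
    x ⬝ᵥ M *ᵥ y = y ⬝ᵥ M *ᵥ x := by
  have h : Mᵀ = M := by
    have := hM.eq
    rwa [conjTranspose_eq_transpose_of_trivial] at this
  rw [dotProduct_mulVec, ← mulVec_transpose, h, dotProduct_comm]

omit [Fintype E] [DecidableEq E] [DecidableEq T] in
private lemma expand_Lat (M : Matrix T T ℝ) (hM : M.IsHermitian) (y b : T → ℝ) (s : ℝ) :
    (y + s • b) ⬝ᵥ M *ᵥ (y + s • b) =
      y ⬝ᵥ M *ᵥ y + 2 * s * (b ⬝ᵥ M *ᵥ y) + s ^ 2 * (b ⬝ᵥ M *ᵥ b) := by
  rw [mulVec_add, mulVec_smul, add_dotProduct, dotProduct_add, dotProduct_add, smul_dotProduct,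
    smul_dotProduct, dotProduct_smul, dotProduct_smul, symm_Lat M hM y b]
  simp only [smul_eq_mul]
  ring

theorem weights3 (b : E → T → ℤ) (a : E → ℝ) (ha : ∀ e, 0 ≤ a e)
    (hr : ∀ F : Finset E, (Module.finrank ℝ (ann b F) : ℝ) ≤ ∑ e ∈ Fᶜ, a e) (ε : ℝ) (hε : 0 < ε) :
    ∃ c : E → ℝ, (∀ e, 0 < c e ∧ c e ≤ 1) ∧ (gram b c).PosDef ∧
      ∀ e, c e * ((fun t => (b e t : ℝ)) ⬝ᵥ (gram b c)⁻¹ *ᵥ fun t => (b e t : ℝ)) ≤ a e + ε := by
  obtain ⟨A, hA0, hA⟩ : ∃ A : ℝ, 0 < A ∧ ∀ e, a e ≤ A :=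
    ⟨∑ e, a e + 1, by have := Finset.sum_nonneg (s := univ) fun e _ => ha e; linarith, fun e => by
      have := Finset.single_le_sum (f := a) (fun e _ => ha e) (mem_univ e); linarith⟩
  obtain ⟨δ, hδ, hδ1, hδ2⟩ : ∃ δ : ℝ, 0 < δ ∧ δ ≤ 1 / 2 ∧ 4 * δ * A ≤ ε := by
    refine ⟨min (1 / 2) (ε / (4 * A)), by positivity, min_le_left _ _, ?_⟩
    have h := min_le_right (1 / 2) (ε / (4 * A))
    rw [le_div_iff₀ (by positivity)] at h
    linarith
  have hθ : 0 < 1 - δ := by linarith
  let c : (E → ℕ) → E → ℝ := fun k e => (1 - δ) ^ k e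
  have hc0 : ∀ k e, 0 < c k e := fun k e => by positivity
  obtain ⟨L, hL⟩ : ∃ L, L = -Real.log (1 - δ) := ⟨_, rfl⟩
  have h2 : 0 ≤ L := by
    have := Real.log_nonpos hθ.le (by linarith)
    linarith
  have h2' : L ≤ δ * (1 + 2 * δ) := by
    have h := Real.log_le_sub_one_of_pos (inv_pos.2 hθ)
    rw [Real.log_inv, ← hL] at h
    have h' : (1 - δ)⁻¹ ≤ 1 + δ * (1 + 2 * δ) := by
      rw [inv_le_iff_one_le_mul₀ hθ]
      nlinarith [mul_nonneg (mul_nonneg hδ.le hδ.le) (show 0 ≤ 1 - 2 * δ by linarith)]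
    linarith
  let Φ : (E → ℕ) → ℝ := fun k => Real.log (gram b (c k)).det + L * ∑ e, a e * k e
  have key : ∀ k, (gram b (c k)).PosDef ∧ 0 ≤ Φ k := fun k => by
    obtain ⟨par, hp, hs⟩ := prim2 b a ha hr k
    obtain ⟨h1, h3⟩ := gram_basis b (c k) (hc0 k) par hp
    refine ⟨h1, ?_⟩
    have h4 := Real.log_le_log (Finset.prod_pos fun t _ => hc0 k (par t)) h3
    rw [Real.log_prod fun t _ => (hc0 k (par t)).ne'] at h4
    have h5 : ∑ t, Real.log (c k (par t)) = -(L * ∑ t, (k (par t) : ℝ)) := by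
      rw [Finset.mul_sum, ← Finset.sum_neg_distrib]
      refine Finset.sum_congr rfl fun t _ => ?_
      simp only [c]
      rw [Real.log_pow, hL]
      ring
    have h6 := mul_le_mul_of_nonneg_left hs h2
    simp only [Φ]
    linarith
  have hη : 0 < δ * (ε / 2) := by positivity
  have hb : BddBelow (Set.range Φ) := ⟨0, by rintro _ ⟨k, rfl⟩; exact (key k).2⟩
  obtain ⟨k, hk⟩ := exists_lt_of_ciInf_lt (show iInf Φ < iInf Φ + δ * (ε / 2) by linarith)
  refine ⟨c k, fun e => ⟨hc0 k e, pow_le_one₀ hθ.le (by linarith)⟩, (key k).1, fun e => ?_⟩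
  have h3 := ciInf_le hb (Function.update k e (k e + 1))
  have h4 : c (Function.update k e (k e + 1)) = Function.update (c k) e (c k e * (1 - δ)) := by
    funext e'
    by_cases h : e' = e
    · subst h
      simp only [c, Function.update_self, pow_succ]
    · simp only [c, Function.update_of_ne h]
  have h5 := gram_upd b (c k) (key k).1 e δ
  have h6 := (key (Function.update k e (k e + 1))).1.det_pos
  have h7 := (key k).1.det_pos
  have h8 : ∑ e', a e' * ((Function.update k e (k e + 1) e' : ℕ) : ℝ) =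
      ∑ e', a e' * k e' + a e := by
    have : ∀ e', a e' * ((Function.update k e (k e + 1) e' : ℕ) : ℝ) =
        a e' * k e' + if e' = e then a e else 0 := fun e' => by
      by_cases h : e' = e
      · subst h
        simp [mul_add]
      · simp [h]
    simp only [this, Finset.sum_add_distrib, Finset.sum_ite_eq', Finset.mem_univ, if_true]
  simp only [Φ] at h3 hk
  rw [h4] at h6
  rw [h4, h8, h5] at h3
  rw [h5] at h6
  generalize c k e * ((fun t => (b e t : ℝ)) ⬝ᵥ (gram b (c k))⁻¹ *ᵥ fun t => (b e t : ℝ)) = x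
    at h3 h6 ⊢
  have h9 : 0 < 1 - δ * x := (pos_iff_pos_of_mul_pos h6).1 h7
  rw [Real.log_mul h7.ne' h9.ne'] at h3
  have h10 := Real.log_le_sub_one_of_pos h9
  have h11 := mul_le_mul_of_nonneg_right h2' (ha e)
  have h12 : δ * x ≤ δ * ((1 + 2 * δ) * a e + ε / 2) := by nlinarith
  have h13 := le_of_mul_le_mul_left h12 hδ
  have h14 := mul_le_mul_of_nonneg_left (hA e) hδ.le
  nlinarith

/-- every coset of twice the lattice has a point with small coefficients -/
theorem lattice3 (b : E → T → ℤ) (a : E → ℝ) (ha : ∀ e, 0 ≤ a e)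
    (hr : ∀ F : Finset E, (Module.finrank ℝ (ann b F) : ℝ) ≤ ∑ e ∈ Fᶜ, a e) (y : T → ℝ)
    (δ : ℝ) (hδ : 0 < δ) : ∃ (m : E → ℤ) (cur : E → ℝ), (∀ e, |cur e| ≤ a e + δ) ∧
      ∀ t, y t + 2 * ∑ e, (m e : ℝ) * b e t = ∑ e, cur e * b e t := by
  obtain ⟨c, hc1, hL, hlev⟩ := weights3 b a ha hr (δ / 2) (by positivity)
  set L := gram b c with hLdef
  have hI : (L⁻¹).PosDef := hL.inv
  have hH : (L⁻¹).IsHermitian := hI.isHermitian
  let Y : (E → ℤ) → T → ℝ := fun m t => y t + 2 * ∑ e, (m e : ℝ) * b e t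
  let En : (E → ℤ) → ℝ := fun m => Y m ⬝ᵥ L⁻¹ *ᵥ Y m
  have hEn : ∀ z, 0 ≤ En z := fun z => by
    have := hI.posSemidef.dotProduct_mulVec_nonneg (Y z)
    simpa using this
  have hb : BddBelow (Set.range En) := ⟨0, by rintro _ ⟨k, rfl⟩; exact hEn k⟩
  obtain ⟨z, hz⟩ := exists_lt_of_ciInf_lt (show iInf En < iInf En + δ by linarith)
  have hmin : ∀ z' : E → ℤ, En z ≤ En z' + δ := fun z' => by
    have := ciInf_le hb z'
    linarith
  set φ : T → ℝ := L⁻¹ *ᵥ Y z with hφ
  have hLφ : L *ᵥ φ = Y z := by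
    rw [hφ, mulVec_mulVec, mul_nonsing_inv _ (isUnit_iff_ne_zero.mpr hL.det_pos.ne'), one_mulVec]
  refine ⟨z, fun e => c e * ∑ s, (b e s : ℝ) * φ s, fun e => ?_, fun t => ?_⟩
  · set β : T → ℝ := fun t => (b e t : ℝ) with hβ
    have key : ∀ s : ℤ, En z ≤ En z + 2 * (2 * s) * (β ⬝ᵥ φ) +
        (2 * s) ^ 2 * (β ⬝ᵥ L⁻¹ *ᵥ β) + δ := by
      intro s
      have hy : Y (z + Pi.single e s) = Y z + (2 * s : ℝ) • β := by
        funext t
        have h0 : ∑ e', (((Pi.single e s : E → ℤ) e' : ℤ) : ℝ) * b e' t = s * b e t := by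
          rw [Finset.sum_eq_single e] <;> simp +contextual
        simp only [Y, hβ, Pi.add_apply, Pi.smul_apply, smul_eq_mul, Int.cast_add, add_mul,
          Finset.sum_add_distrib, h0]
        ring
      have h1 := hmin (z + Pi.single e s)
      have h2 : En (z + Pi.single e s) =
          En z + 2 * (2 * s) * (β ⬝ᵥ φ) + (2 * s) ^ 2 * (β ⬝ᵥ L⁻¹ *ᵥ β) := by
        simp only [En]
        rw [hy, expand_Lat _ hH]
      linarith
    have k1 := key 1
    have k2 := key (-1)
    push_cast at k1 k2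
    have habs : |β ⬝ᵥ φ| ≤ β ⬝ᵥ L⁻¹ *ᵥ β + δ / 4 := by
      rw [abs_le]
      constructor <;> linarith
    have h3 := hlev e
    obtain ⟨h5, h6⟩ := hc1 e
    have h7 := mul_le_mul_of_nonneg_left habs h5.le
    have h8 : c e * (δ / 4) ≤ δ / 4 := by nlinarith
    rw [mul_add] at h7
    have h9 : |c e * ∑ s, (b e s : ℝ) * φ s| = c e * |β ⬝ᵥ φ| := by
      rw [abs_mul, abs_of_pos h5]
      rfl
    rw [h9]
    linarith
  · have h := gram_mulVec b c φ t
    rw [← hLdef, hLφ] at h
    exact h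

theorem lat_pf : LatStm := fun _ _ _ _ _ _ b a ha hr y ε hε => lattice3 b a ha hr y ε hε

end Pool.Agent.MP_9a3194_co.En
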