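import Pool.Agent.MP_9a3194_co.En.Stm

/-! Potentials in the group of the surface along few sides. -/

open Finset

namespace Pool.Agent.MP_9a3194_co.En

/-- the element of the group read along a walk -/
def word_Pot {D : Type} (M : Poly D) (w : List (D × Bool)) : PresentedGroup M.rels :=
  (w.map fun e => if e.2 then (PresentedGroup.of (rels := M.rels) e.1)⁻¹
    else PresentedGroup.of e.1).prod

theorem word_nil_Pot {D : Type} (M : Poly D) : word_Pot M [] = 1 := rfl

theorem word_f_Pot {D : Type} (M : Poly D) (w w' : List (D × Bool)) (d : D) :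
    word_Pot M (w ++ (d, false) :: w') = word_Pot M w * PresentedGroup.of d * word_Pot M w' := by
  simp [word_Pot, mul_assoc]

theorem word_t_Pot {D : Type} (M : Poly D) (w w' : List (D × Bool)) (d : D) :
    word_Pot M (w ++ (d, true) :: w') =
      word_Pot M w * (PresentedGroup.of d)⁻¹ * word_Pot M w' := by
  simp [word_Pot, mul_assoc]

theorem join_Pot {D : Type} (M : Poly D) (e : D × Bool) {w' : List (D × Bool)} {z : D}
    (h' : M.Walk (M.head e) w' z) (w : List (D × Bool)) :
    ∀ x, M.Walk x w (M.tail e) → M.Walk x (w ++ e :: w') z := by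
  induction w with
  | nil => exact fun x h => ⟨h, h'⟩
  | cons a w ih => exact fun x h => ⟨h.1, ih _ h.2⟩

theorem pot_pf : PotStm := by
  classical
  intro D M c hW S
  suffices H : 2 ^ S.card ≤ c → ∃ (R : D → D → Prop) (h : D → PresentedGroup M.rels),
      (∀ x y, R x y → R y x) ∧ (∀ x y z, R x y → R y z → R x z) ∧ (∀ x y, M.Same x y → R x y) ∧
      (∀ x y, M.Same x y → h x = h y) ∧
      (∀ d ∈ S, R d (M.nxt d) ∧ h d * PresentedGroup.of d = h (M.nxt d)) ∧
      ∀ x y, R x y → ∃ w, M.Walk x w y ∧ w.length + 1 ≤ 2 ^ S.card ∧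
        h x * word_Pot M w = h y by
    intro hc
    obtain ⟨R, h, -, -, -, h1, h2, -⟩ := H hc
    exact ⟨h, h1, fun d hd => (h2 d hd).2⟩
  induction S using Finset.induction_on with
  | empty =>
    exact fun _ => ⟨M.Same, fun _ => 1, fun x y => Relation.EqvGen.symm x y,
      fun x y z => Relation.EqvGen.trans x y z, fun _ _ h => h, fun _ _ _ => rfl,
      fun d hd => absurd hd (notMem_empty d), fun x y h => ⟨[], h, le_rfl, mul_one _⟩⟩
  | insert d S hd ih =>
    rw [card_insert_of_notMem hd, pow_succ]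
    intro hc
    have hp : 0 < 2 ^ S.card := by positivity
    obtain ⟨R, h, rs, rt, r1, h1, h2, h3⟩ := ih (by omega)
    have rr : ∀ x, R x x := fun x => r1 x x (Relation.EqvGen.refl x)
    by_cases hR : R d (M.nxt d)
    · refine ⟨R, h, rs, rt, r1, h1, fun e he => ?_, fun x y hxy => ?_⟩
      · rcases mem_insert.1 he with rfl | he
        · obtain ⟨w, w1, w2, w3⟩ := h3 _ _ hR
          have e1 : word_Pot M (w ++ [(e, true)]) = 1 :=
            hW e _ (join_Pot M (e, true) (w' := []) (Relation.EqvGen.refl e) w e w1)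
              (by rw [List.length_append, List.length_singleton]; omega)
          rw [word_t_Pot, word_nil_Pot, mul_one, mul_inv_eq_one] at e1
          exact ⟨hR, by rw [← e1, w3]⟩
        · exact h2 e he
      · obtain ⟨w, w1, w2, w3⟩ := h3 x y hxy
        exact ⟨w, w1, by omega, w3⟩
    · obtain ⟨k, hk⟩ : ∃ k, k * h (M.nxt d) = h d * PresentedGroup.of d :=
        ⟨h d * PresentedGroup.of d * (h (M.nxt d))⁻¹, inv_mul_cancel_right _ _⟩
      have key : ∀ x y g, R x y → h x * g = h y →
          (if R (M.nxt d) x then k * h x else h x) * g =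
            if R (M.nxt d) y then k * h y else h y := fun x y g hxy e => by
        by_cases hx : R (M.nxt d) x
        · rw [if_pos hx, if_pos (rt _ _ _ hx hxy), mul_assoc, e]
        · rw [if_neg hx, if_neg fun hy => hx (rt _ _ _ hy (rs _ _ hxy)), e]
      refine ⟨fun x y => R x y ∨ (R x d ∧ R (M.nxt d) y) ∨ (R x (M.nxt d) ∧ R d y),
        fun x => if R (M.nxt d) x then k * h x else h x, ?_, ?_, fun x y hxy => Or.inl (r1 x y hxy),
        fun x y hxy => ?_, fun e he => ?_, ?_⟩
      · rintro x y (a | ⟨a, b⟩ | ⟨a, b⟩)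
        exacts [Or.inl (rs _ _ a), Or.inr (Or.inr ⟨rs _ _ b, rs _ _ a⟩),
          Or.inr (Or.inl ⟨rs _ _ b, rs _ _ a⟩)]
      · rintro x y z (a | ⟨a, b⟩ | ⟨a, b⟩) (a' | ⟨a', b'⟩ | ⟨a', b'⟩)
        exacts [Or.inl (rt _ _ _ a a'), Or.inr (Or.inl ⟨rt _ _ _ a a', b'⟩),
          Or.inr (Or.inr ⟨rt _ _ _ a a', b'⟩), Or.inr (Or.inl ⟨a, rt _ _ _ b a'⟩),
          Or.inr (Or.inl ⟨a, b'⟩), Or.inl (rt _ _ _ a b'), Or.inr (Or.inr ⟨a, rt _ _ _ b a'⟩),
          Or.inl (rt _ _ _ a b'), Or.inr (Or.inr ⟨a, b'⟩)]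
      · have := key x y 1 (r1 x y hxy) (by rw [mul_one, h1 x y hxy])
        rwa [mul_one] at this
      · rcases mem_insert.1 he with rfl | he
        · refine ⟨Or.inr (Or.inl ⟨rr _, rr _⟩), ?_⟩
          beta_reduce
          rw [if_neg fun a => hR (rs _ _ a), if_pos (rr _), hk]
        · exact ⟨Or.inl (h2 e he).1, key _ _ _ (h2 e he).1 (h2 e he).2⟩
      · rintro x y (a | ⟨a, b⟩ | ⟨a, b⟩)
        · obtain ⟨w, w1, w2, w3⟩ := h3 x y a
          exact ⟨w, w1, by omega, key _ _ _ a w3⟩
        · obtain ⟨w, w1, w2, w3⟩ := h3 _ _ a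
          obtain ⟨u, u1, u2, u3⟩ := h3 _ _ b
          refine ⟨w ++ (d, false) :: u, join_Pot M (d, false) u1 w x w1,
            by rw [List.length_append, List.length_cons]; omega, ?_⟩
          beta_reduce
          rw [if_neg fun a' => hR (rs _ _ (rt _ _ _ a' a)), if_pos b, word_f_Pot, ← mul_assoc,
            ← mul_assoc, w3, ← hk, mul_assoc, u3]
        · obtain ⟨w, w1, w2, w3⟩ := h3 _ _ a
          obtain ⟨u, u1, u2, u3⟩ := h3 _ _ b
          refine ⟨w ++ (d, true) :: u, join_Pot M (d, true) u1 w x w1,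
            by rw [List.length_append, List.length_cons]; omega, ?_⟩
          beta_reduce
          rw [if_pos (rs _ _ a), if_neg fun a' => hR (rt _ _ _ b (rs _ _ a')), word_t_Pot,
            ← mul_assoc, ← mul_assoc, mul_assoc k, w3, hk, mul_inv_cancel_right, u3]

end Pool.Agent.MP_9a3194_co.En
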