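import Pool.Agent.MP_9a3194_co.En.Stm

set_option autoImplicit false

open Finset

namespace Pool.Agent.MP_9a3194_co.En

theorem half_Rank {X : Type} (σ : X → X) (hσ : ∀ x, σ (σ x) = x) :
    ∃ P : X → Bool, ∀ x, σ x ≠ x → P (σ x) = !P x := by
  classical
  obtain ⟨_, _⟩ := exists_wellFoundedLT X
  refine ⟨fun x => decide (x < σ x), fun x hx => ?_⟩
  simp only [hσ]
  rcases lt_or_gt_of_ne hx with h | h
  · simp [h, h.le]
  · simp [h, h.le]

theorem rank_pf : RankStm := by
  classical
  intro D T _ _ _ _ G σ z F hσ hD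
  let W := ann (G.vec z) F
  let ev : T → Module.Dual ℝ W := fun t => (LinearMap.proj t).comp W.subtype
  have hev : ∀ d, some d ∈ F →
      ev (G.fc (G.r d)) = if G.tw d then -ev (G.fc d) else ev (G.fc d) := fun d hd => by
    ext ψ
    have h : ∑ t, (G.vec z (some d) t : ℝ) * ψ.1 t = 0 := ψ.2 _ hd
    simp only [SG.vec, Int.cast_add, Int.cast_ite, Int.cast_one, Int.cast_zero, Int.cast_neg,
      add_mul, ite_mul, one_mul, zero_mul, sum_add_distrib, sum_ite_eq, mem_univ, if_true] at h
    show ψ.1 (G.fc (G.r d)) = _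
    split_ifs at h ⊢
    · show _ = -ψ.1 (G.fc d)
      linarith
    · show _ = ψ.1 (G.fc d)
      linarith
  obtain ⟨P, hP⟩ := half_Rank (fun f : Module.Dual ℝ W => -f) neg_neg
  have hne : ∀ f : Module.Dual ℝ W, f ≠ 0 → P (-f) = !P f := fun f hf => hP f fun h => hf (by
    ext ψ
    have := LinearMap.congr_fun h ψ
    simp only [LinearMap.neg_apply] at this
    simp only [LinearMap.zero_apply]
    linarith)
  obtain ⟨n, n1, n2⟩ : ∃ n : Module.Dual ℝ W → Module.Dual ℝ W, (∀ f, n (-f) = n f) ∧
      ∀ f, n f = f ∨ n f = -f := by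
    refine ⟨fun f => if P f then f else -f, fun f => ?_, fun f => ?_⟩
    · by_cases hf : f = 0
      · simp [hf]
      · simp only [hne f hf]
        cases P f <;> simp
    · dsimp only
      split_ifs <;> simp
  let S := univ.image fun t => n (ev t)
  obtain ⟨idx, hi⟩ := Set.countable_iff_exists_injOn.1 S.finite_toSet.countable
  have h1 := hD fun t => idx (n (ev t))
  have h2 : (univ.image fun t => idx (n (ev t))).card = S.card := by
    rw [← card_image_of_injOn hi, image_image]
    rfl
  have h3 : (univ.filter fun d => idx (n (ev (G.fc (G.r d)))) ≠ idx (n (ev (G.fc d)))).card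
      ≤ (univ.filter fun d => some d ∉ F).card := by
    refine card_le_card fun d hd => mem_filter.2 ⟨mem_univ _, fun h => (mem_filter.1 hd).2 ?_⟩
    rw [hev d h]
    split_ifs
    · rw [n1]
    · rfl
  have h4 : 2 * σ * ((S.card : ℝ) - 1) ≤ ((univ.filter fun d => some d ∉ F).card : ℝ) := by
    rw [h2] at h1
    exact h1.trans (by exact_mod_cast h3)
  have h5 : Module.finrank ℝ W ≤ (S.erase 0).card := by
    have := LinearMap.finrank_le_finrank_of_injective
      (f := LinearMap.pi fun f : S.erase 0 => f.1) ((injective_iff_map_eq_zero _).2 fun ψ h => ?_)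
    · rwa [Module.finrank_fintype_fun_eq_card, Fintype.card_coe] at this
    · ext t
      have h6 : n (ev t) ψ = 0 := by
        by_cases h0 : n (ev t) = 0
        · rw [h0, LinearMap.zero_apply]
        · exact congrFun h ⟨_, mem_erase.2 ⟨h0, mem_image_of_mem _ (mem_univ t)⟩⟩
      rcases n2 (ev t) with e | e <;> rw [e] at h6
      · exact h6
      · exact neg_eq_zero.1 h6
  refine ⟨le_trans (mul_le_mul_of_nonneg_left (sub_le_sub_right ?_ 1) (by positivity)) h4,
    fun ⟨t, ht⟩ => le_trans (mul_le_mul_of_nonneg_left ?_ (by positivity)) h4,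
    fun h => ⟨fun t => P (ev t), fun d hd => ?_⟩⟩
  · exact_mod_cast h5.trans card_erase_le
  · have e : ev t = 0 := LinearMap.ext fun ψ => ht ψ.1 ψ.2
    have h0 : (0 : Module.Dual ℝ W) ∈ S := by
      refine mem_image.2 ⟨t, mem_univ _, ?_⟩
      rcases n2 (ev t) with h | h <;> rw [h, e]
      exact neg_zero
    rw [le_sub_iff_add_le, ← card_erase_add_one h0]
    exact_mod_cast Nat.succ_le_succ h5
  · obtain ⟨ψ, h6, h7⟩ := h (G.fc d)
    have e : ev (G.fc d) ≠ 0 := fun h8 => h7 (LinearMap.congr_fun h8 ⟨ψ, h6⟩)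
    show P (ev _) = xor (P (ev _)) _
    rw [hev d hd]
    cases G.tw d
    · simp
    · simp [hne _ e]

end Pool.Agent.MP_9a3194_co.En
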