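import Pool.Agent.MP_9a3194_co.En.Stm

/-! Rounding on a signed graph through a perfect `b`-matching. -/

open Finset

namespace Pool.Agent.MP_9a3194_co.En

variable {D T : Type}

theorem ori_Rnd [Fintype D] (r : D → D) (h1 : ∀ d, r (r d) = d) (h2 : ∀ d, r d ≠ d) :
    ∃ o : D → Bool, ∀ d, o (r d) = !o d := by
  refine ⟨fun d => decide (Fintype.equivFin D d < Fintype.equivFin D (r d)), fun d => ?_⟩
  have := (Fintype.equivFin D).injective.ne (h2 d)
  simp only
  rw [h1, ← decide_not, decide_eq_decide, not_lt]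
  exact ⟨le_of_lt, fun h => lt_of_le_of_ne h this⟩

/-- the subdividing vertex met by a dart -/
def nd_Rnd (G : SG D T) (ob : D → Bool) (d : D) : D := if G.tw d || ob d then d else G.r d

/-- first ends -/
def P_Rnd (G : SG D T) : D ⊕ D → T ⊕ D := Sum.elim (fun d => .inl (G.fc d)) fun d => .inr d

/-- second ends -/
def Q_Rnd (G : SG D T) (ob : D → Bool) : D ⊕ D → T ⊕ D :=
  Sum.elim (fun d => .inr (nd_Rnd G ob d)) fun d => .inr (G.r d)

/-- edge values -/
def V_Rnd {R : Type} [Ring R] (G : SG D T) (ob : D → Bool) (k : R) (s : D → R) : D ⊕ D → R :=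
  Sum.elim s fun d => if G.tw d && ob d then k - s d else 0

section sums

variable [Fintype D] [DecidableEq D] [DecidableEq T] (G : SG D T) {ob : D → Bool}

theorem inl_Rnd {R : Type} [AddCommMonoid R] (N : D ⊕ D → R) (t : T) :
    ∑ a, ((if P_Rnd G a = .inl t then N a else 0) + if Q_Rnd G ob a = .inl t then N a else 0) =
      G.dv (fun d => N (.inl d)) t := by
  rw [Fintype.sum_sum_type, SG.dv, sum_filter]
  simp [P_Rnd, Q_Rnd]

theorem inr_Rnd (ho : ∀ d, ob (G.r d) = !ob d) {R : Type} [AddCommMonoid R] (N : D ⊕ D → R)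
    (e : D) :
    ∑ a, ((if P_Rnd G a = .inr e then N a else 0) + if Q_Rnd G ob a = .inr e then N a else 0) =
      (if G.tw e then N (.inl e) else if ob e then N (.inl e) + N (.inl (G.r e)) else 0) +
        (N (.inr e) + N (.inr (G.r e))) := by
  have hr : ∀ d, G.r d = e ↔ d = G.r e := fun d =>
    ⟨fun h => by rw [← h, G.rr], fun h => by rw [h, G.rr]⟩
  have h1 : ∀ d, (if nd_Rnd G ob d = e then N (.inl d) else 0) =
      (if d = e then (if G.tw e || ob e then N (.inl d) else 0) else 0) +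
        if d = G.r e then (if !G.tw e && ob e then N (.inl d) else 0) else 0 := fun d => by
    unfold nd_Rnd
    by_cases a : d = e
    · subst a
      cases h : (G.tw d || ob d) <;> simp [G.rne, (G.rne d).symm]
    by_cases b : d = G.r e
    · subst b
      cases h : G.tw e <;> cases h' : ob e <;> simp [G.rne, G.rr, G.twr, ho, h, h']
    · have c : G.r d ≠ e := fun h => b ((hr d).1 h)
      cases h : (G.tw d || ob d) <;> simp [a, b, c]
  rw [Fintype.sum_sum_type]
  simp only [P_Rnd, Q_Rnd, Sum.elim_inl, Sum.elim_inr, reduceCtorEq, if_false, zero_add,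
    Sum.inr.injEq, h1, hr, sum_add_distrib, sum_ite_eq', mem_univ, if_true]
  cases G.tw e <;> cases ob e <;> simp

theorem val_Rnd (ho : ∀ d, ob (G.r d) = !ob d) {R : Type} [CommRing R] (k : R) (s : D → R)
    (hs : ∀ d, s (G.r d) = if G.tw d then s d else k - s d) (e : D) :
    ∑ a, ((if P_Rnd G a = .inr e then V_Rnd G ob k s a else 0) +
      if Q_Rnd G ob a = .inr e then V_Rnd G ob k s a else 0) =
      if G.tw e || ob e then k else 0 := by
  rw [inr_Rnd G ho]
  simp only [V_Rnd, Sum.elim_inl, Sum.elim_inr, G.twr, ho, hs]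
  cases G.tw e <;> cases ob e <;> simp

end sums

theorem tot_Rnd {W A : Type} [Fintype W] [DecidableEq W] [Fintype A] (p q : A → W) (N : A → ℤ) :
    Even (∑ w, ∑ a, ((if p a = w then N a else 0) + if q a = w then N a else 0)) := by
  rw [sum_comm]
  simp only [sum_add_distrib, sum_ite_eq, mem_univ, if_true]
  exact ⟨_, rfl⟩

theorem col_Rnd [DecidableEq T] (G : SG D T) {ob : D → Bool} (ho : ∀ d, ob (G.r d) = !ob d)
    (k : ℝ) (s : D → ℝ) (Y : Finset T) (hY : G.Bal Y) :
    ∃ χ : T ⊕ D → Bool, ∀ a, V_Rnd G ob k s a ≠ 0 → (∀ t, P_Rnd G a = .inl t → t ∈ Y) →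
      χ (P_Rnd G a) ≠ χ (Q_Rnd G ob a) := by
  obtain ⟨o, h⟩ := hY
  refine ⟨Sum.elim o fun d => if G.fc d ∈ Y then !o (G.fc d) else if G.fc (G.r d) ∈ Y then
    (if G.tw d then o (G.fc (G.r d)) else !o (G.fc (G.r d))) else ob d, ?_⟩
  rintro (d | d) h1 h2
  · have h3 := h2 _ rfl
    have h4 := h d h3
    simp only [P_Rnd, Q_Rnd, Sum.elim_inl, Sum.elim_inr, nd_Rnd, SG.Ok] at h4 ⊢
    cases a : G.tw d <;> cases b : ob d <;> by_cases c : G.fc (G.r d) ∈ Y <;>
      simp_all [G.rr, G.twr]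
  · have h3 : G.tw d = true := by
      by_contra a
      simp [V_Rnd, a] at h1
    have h4 := h d
    simp only [P_Rnd, Q_Rnd, Sum.elim_inr, SG.Ok] at h4 ⊢
    by_cases b : G.fc d ∈ Y <;> by_cases c : G.fc (G.r d) ∈ Y <;>
      simp_all [G.rr, G.twr]

theorem cut_Rnd [Fintype D] [DecidableEq D] [Fintype T] [DecidableEq T] (G : SG D T)
    {ob : D → Bool} (ho : ∀ d, ob (G.r d) = !ob d) (k η : ℝ) (hη : 0 < η) (s : D → ℝ)
    (h1 : ∀ d, η ≤ s d) (h2 : ∀ d, η ≤ k - s d) (K : Finset (T ⊕ D)) :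
    η * ((G.out (univ.filter fun t => Sum.inl t ∈ K)).card : ℝ) ≤
      ∑ a, if (P_Rnd G a ∈ K ↔ Q_Rnd G ob a ∈ K) then 0 else V_Rnd G ob k s a := by
  set f : D ⊕ D → ℝ := fun a => if (P_Rnd G a ∈ K ↔ Q_Rnd G ob a ∈ K) then 0
    else V_Rnd G ob k s a with hf
  set g : D → ℝ := fun d => if Sum.inl (G.fc d) ∈ K ∧ Sum.inl (G.fc (G.r d)) ∉ K then η else 0
    with hg
  have e1 : η * ((G.out (univ.filter fun t => Sum.inl t ∈ K)).card : ℝ) = ∑ d, g d := by
    simp only [hg, SG.out, mem_filter, mem_univ, true_and]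
    rw [← sum_filter, sum_const, nsmul_eq_mul, mul_comm]
  have rv : ∀ u : D → ℝ, ∑ d, u (G.r d) = ∑ d, u d := fun u =>
    (Function.Involutive.bijective G.rr).sum_comp u
  have key : ∀ d, g d + g (G.r d) ≤
      (f (.inl d) + f (.inr d)) + (f (.inl (G.r d)) + f (.inr (G.r d))) := fun d => by
    have a1 := h1 d
    have a2 := h2 d
    have a3 := h1 (G.r d)
    have a4 := h2 (G.r d)
    simp only [hf, hg, P_Rnd, Q_Rnd, V_Rnd, nd_Rnd, Sum.elim_inl, Sum.elim_inr, G.rr, G.twr, ho]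
    cases G.tw d <;> cases ob d <;> by_cases b1 : Sum.inl (G.fc d) ∈ K <;>
      by_cases b2 : Sum.inl (G.fc (G.r d)) ∈ K <;> by_cases b3 : Sum.inr d ∈ K <;>
      by_cases b4 : Sum.inr (G.r d) ∈ K <;> simp [b1, b2, b3, b4] <;> linarith
  have e2 := sum_le_sum fun d (_ : d ∈ univ) => key d
  rw [sum_add_distrib, rv g, sum_add_distrib (f := fun d => f (.inl d) + f (.inr d)),
    rv fun d => f (.inl d) + f (.inr d), sum_add_distrib] at e2
  rw [e1, Fintype.sum_sum_type]
  change _ ≤ ∑ d, f (.inl d) + ∑ d, f (.inr d)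
  linarith

theorem rnd_pf (hB : BmStm) : RndStm := by
  intro D T _ _ _ _ G κ x₀ C η hη hx hC hev hb hdv hX
  obtain ⟨ob, ho⟩ := ori_Rnd G.r G.rr G.rne
  choose m hm using hev
  have hn : ∀ d, x₀ d = 2 * (m d + κ) - κ := fun d => by linarith [hm d]
  set n₀ : D → ℤ := fun d => m d + κ with hn₀
  set s : D → ℝ := fun d => (κ + C d) / 2 with hs
  have s1 : ∀ d, η ≤ s d := fun d => by
    have := (abs_le.1 (hb d)).1
    simp only [hs]
    linarith
  have s2 : ∀ d, η ≤ κ - s d := fun d => by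
    have := (abs_le.1 (hb d)).2
    simp only [hs]
    linarith
  have s3 : ∀ d, s (G.r d) = if G.tw d then s d else κ - s d := fun d => by
    simp only [hs, hC d]
    split_ifs <;> ring
  have n3 : ∀ d, n₀ (G.r d) = if G.tw d then n₀ d else κ - n₀ d := fun d => by
    have a := hx d
    rw [hn, hn] at a
    simp only [hn₀]
    split_ifs at a ⊢ <;> linarith
  have d1 : ∀ t, ((G.dv n₀ t : ℤ) : ℝ) = G.dv s t := fun t => by
    have a := hdv t
    simp only [SG.dv, hn, hs, hn₀] at a ⊢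
    push_cast at a ⊢
    simp only [sum_sub_distrib, ← mul_sum, ← sum_div] at a ⊢
    rw [sum_add_distrib (g := C)]
    linarith
  have d2 : ∀ t, (((G.dv n₀ t).toNat : ℕ) : ℤ) = G.dv n₀ t := fun t => by
    refine Int.toNat_of_nonneg ?_
    have : (0 : ℝ) ≤ G.dv s t := sum_nonneg fun d _ => hη.le.trans (s1 d)
    rw [← d1] at this
    exact_mod_cast this
  obtain ⟨N, N1, N2⟩ := hB (T ⊕ D) (D ⊕ D) (P_Rnd G) (Q_Rnd G ob) (V_Rnd G ob κ s)
    (Sum.elim (fun t => (G.dv n₀ t).toNat) fun d => if G.tw d || ob d then κ else 0)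
    (by
      rintro (d | d)
      · exact hη.le.trans (s1 d)
      · exact ite_nonneg (hη.le.trans (s2 d)) le_rfl)
    (by
      rintro (d | d)
      · exact Sum.inl_ne_inr
      · exact fun h => G.rne d (Sum.inr.inj h).symm)
    (by
      rintro (t | e)
      · rw [inl_Rnd]
        change G.dv s t = (((G.dv n₀ t).toNat : ℕ) : ℝ)
        rw [← d1, ← d2 t]
        simp only [Int.cast_natCast, Int.toNat_natCast]
      · rw [val_Rnd G ho _ _ s3]
        simp only [Sum.elim_inr]
        split_ifs <;> simp)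
    (by
      rw [← Int.even_coe_nat, Nat.cast_sum]
      have := tot_Rnd (P_Rnd G) (Q_Rnd G ob) (V_Rnd G ob κ n₀)
      rwa [sum_congr rfl] at this
      rintro (t | e) -
      · rw [inl_Rnd]
        exact (d2 t).symm
      · rw [val_Rnd G ho _ _ n3]
        simp only [Sum.elim_inr]
        split_ifs <;> simp)
    (fun K => by
      have c := cut_Rnd G ho κ η hη s s1 s2 K
      by_cases a : η * ((G.out (univ.filter fun t => Sum.inl t ∈ K)).card : ℝ) < 1
      · right
        rcases hX _ a with h | h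
        · obtain ⟨χ, hχ⟩ := col_Rnd G ho κ s _ h
          exact Or.inl ⟨χ, fun a b1 b2 _ => hχ a b1 fun t e => by simpa [e] using b2⟩
        · obtain ⟨χ, hχ⟩ := col_Rnd G ho κ s _ h
          exact Or.inr ⟨χ, fun a b1 b2 _ => hχ a b1 fun t e => by simpa [e] using b2⟩
      · exact Or.inl ((not_lt.1 a).trans c))
  have v1 : ∀ t, G.dv (fun d => N (.inl d)) t = (G.dv n₀ t).toNat := fun t => by
    rw [← inl_Rnd G (ob := ob), N2]
    rfl
  have v2 : ∀ e, (if G.tw e then N (.inl e) else if ob e then N (.inl e) + N (.inl (G.r e)) else 0)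
      + (N (.inr e) + N (.inr (G.r e))) = if G.tw e || ob e then κ else 0 := fun e => by
    rw [← inr_Rnd G ho, N2]
    rfl
  have v3 : ∀ d, N (.inl d) ≤ κ ∧ ((N (.inl (G.r d)) : ℤ) =
      if G.tw d then (N (.inl d) : ℤ) else κ - N (.inl d)) := fun d => by
    have a := v2 d
    have b := v2 (G.r d)
    rw [G.twr, G.rr, ho] at b
    cases h : G.tw d
    · have c := N1 (.inr d) (by simp [V_Rnd, h])
      have c' := N1 (.inr (G.r d)) (by simp [V_Rnd, h, G.twr])
      cases h' : ob d <;> simp [h, h', c, c'] at a b ⊢ <;> omega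
    · simp [h] at a b ⊢
      omega
  refine ⟨fun d => 2 * (N (.inl d) : ℤ) - κ, fun d => ?_, fun d => ⟨(N (.inl d) : ℤ) - κ, by ring⟩,
    fun d => ?_, fun t => ?_⟩
  · simp only [(v3 d).2]
    split_ifs <;> ring
  · have := (v3 d).1
    simp only [abs_le]
    constructor <;> omega
  · have a := congrArg (Nat.cast : ℕ → ℤ) (v1 t)
    rw [d2] at a
    simp only [SG.dv, hn, hn₀] at a ⊢
    push_cast at a
    simp only [sum_sub_distrib, ← mul_sum, a]

end Pool.Agent.MP_9a3194_co.En
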