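import Pool.Agent.MP_9a3194_co.En.Stm

/-! Two fixed point free involutions admit a common two-colouring. -/

open Finset

namespace Pool.Agent.MP_9a3194_co.En

theorem iter_ne_Sheet {X : Type} {a b : X → X} (ha : ∀ x, a (a x) = x) (hb : ∀ x, b (b x) = x)
    (na : ∀ x, a x ≠ x) (nb : ∀ x, b x ≠ x) :
    ∀ (n : ℕ) (x : X), (fun y => b (a y))^[n] x ≠ a x
  | 0, x => (na x).symm
  | 1, x => nb (a x)
  | n + 2, x => fun h => by
    rw [Function.iterate_succ_apply', Function.iterate_succ_apply] at h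
    refine iter_ne_Sheet ha hb na nb n (b (a x)) ?_
    have h1 := congrArg (fun y => a (b y)) h
    simpa only [ha, hb] using h1

theorem col_Sheet {X : Type} [Finite X] {a b : X → X} (ha : ∀ x, a (a x) = x)
    (hb : ∀ x, b (b x) = x) (na : ∀ x, a x ≠ x) (nb : ∀ x, b x ≠ x) :
    ∃ β : X → Bool, (∀ x, β (a x) = !β x) ∧ ∀ x, β (b x) = !β x := by
  let ρ : Equiv.Perm X := ⟨fun y => b (a y), fun y => a (b y), fun y => by simp only [ha, hb],
    fun y => by simp only [ha, hb]⟩
  let s := Equiv.Perm.SameCycle.setoid ρ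
  obtain ⟨idx, hidx⟩ := exists_injective_nat (Quotient s)
  have h1 : ∀ x, Quotient.mk s (b (a x)) = Quotient.mk s x := fun x =>
    Quotient.sound (Equiv.Perm.SameCycle.symm ⟨1, rfl⟩)
  have h2 : ∀ x, idx (Quotient.mk s x) ≠ idx (Quotient.mk s (a x)) := fun x h => by
    obtain ⟨n, hn⟩ := Equiv.Perm.SameCycle.exists_nat_pow_eq (f := ρ) (Quotient.exact (hidx h))
    rw [Equiv.Perm.coe_pow] at hn
    exact iter_ne_Sheet ha hb na nb n x hn
  have h3 : ∀ x, Quotient.mk s (b x) = Quotient.mk s (a x) := fun x => by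
    rw [← h1 (a x), ha]
  have h4 : ∀ x, Quotient.mk s (a (b x)) = Quotient.mk s x := fun x => by
    rw [← h1 (a (b x)), ha, hb]
  refine ⟨fun x => decide (idx (Quotient.mk s x) < idx (Quotient.mk s (a x))), fun x => ?_,
    fun x => ?_⟩
  · have := h2 x
    simp only [ha, ← decide_not, decide_eq_decide]
    omega
  · have := h2 x
    simp only [h3, h4, ← decide_not, decide_eq_decide]
    omega

theorem sheet_pf : SheetStm := by
  intro D _ M
  obtain ⟨β, h1, h2⟩ := col_Sheet (X := D × Bool)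
    (a := fun e => (if e.2 then M.nxt e.1 else M.nxt.symm e.1, !e.2)) (b := M.mate)
    (by rintro ⟨d, _ | _⟩ <;> simp)
    (by
      rintro ⟨d, c⟩
      simp only [Poly.mate, M.αα, M.twα]
      cases M.tw d <;> simp)
    (by rintro ⟨d, _ | _⟩ <;> simp)
    (fun e h => M.αne e.1 (congrArg Prod.fst h))
  have h3 : ∀ e : D × Bool, β (M.tail e, false) = xor (β e) e.2 := by
    rintro ⟨d, _ | _⟩
    · simp [Poly.tail]
    · simpa [Poly.tail] using h1 (d, true)
  refine ⟨fun c => β (c, false), fun e => ?_⟩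
  simp only [h3, h2]
  simp only [Poly.mate]
  cases M.tw e.1 <;> cases e.2 <;> cases β e <;> rfl

end Pool.Agent.MP_9a3194_co.En
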