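import Pool.Agent.MP_9a3194_co.En.Stm

/-! From the lattice lemma to an odd assignment with a small current. -/

open Finset

namespace Pool.Agent.MP_9a3194_co.En

theorem ori_Side {D : Type} [Fintype D] (r : D → D) (h1 : ∀ d, r (r d) = d) (h2 : ∀ d, r d ≠ d) :
    ∃ o : D → Bool, ∀ d, o (r d) = !o d := by
  refine ⟨fun d => decide (Fintype.equivFin D d < Fintype.equivFin D (r d)), fun d => ?_⟩
  have := (Fintype.equivFin D).injective.ne (h2 d)
  simp only
  rw [h1, ← decide_not, decide_eq_decide, not_lt]
  exact ⟨le_of_lt, fun h => lt_of_le_of_ne h this⟩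

theorem key_Side {D T : Type} [Fintype D] [DecidableEq T] (G : SG D T) (z : T → ℤ) (m : D → ℝ)
    (t : T) : ∑ d, m d * (G.vec z (some d) t : ℝ) =
      G.dv (fun d => m d + (if G.tw d then 1 else -1) * m (G.r d)) t := by
  have e : (∑ d, if G.fc (G.r (G.r d)) = t then
      (if G.tw (G.r d) then (1 : ℝ) else -1) * m (G.r d) else 0) =
      ∑ d, if G.fc (G.r d) = t then (if G.tw d then (1 : ℝ) else -1) * m d else 0 :=
    Equiv.sum_comp (Function.Involutive.toPerm G.r G.rr)
      (fun d => if G.fc (G.r d) = t then (if G.tw d then (1 : ℝ) else -1) * m d else 0)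
  simp only [G.rr, G.twr] at e
  have e1 : ∀ d, m d * (G.vec z (some d) t : ℝ) = (if G.fc d = t then m d else 0) +
      if G.fc (G.r d) = t then (if G.tw d then (1 : ℝ) else -1) * m d else 0 := fun d => by
    simp only [SG.vec]
    split_ifs <;> push_cast <;> ring
  rw [SG.dv, sum_filter, sum_congr rfl fun d _ => e1 d, sum_add_distrib, ← e, ← sum_add_distrib]
  refine sum_congr rfl fun d _ => ?_
  split_ifs <;> simp

theorem side_pf (hL : LatStm) : SideStm := by
  intro D T _ _ _ _ G z lam a₀ ε hl ha hε H
  obtain ⟨ob, hob⟩ := ori_Side G.r G.rr G.rne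
  obtain ⟨x1, r1, o1⟩ : ∃ x1 : D → ℤ, G.Rule x1 ∧ ∀ d, Even (x1 d - 1) := by
    refine ⟨fun d => if G.tw d then 1 else if ob d then 1 else -1, fun d => ?_, fun d => ?_⟩
    · simp only [G.twr, hob]
      cases G.tw d <;> cases ob d <;> simp
    · simp only
      split_ifs <;> decide
  obtain ⟨m, cur, h1, h2⟩ := hL T (Option D) (G.vec z) (fun e => e.elim a₀ fun _ => lam / 2)
    (fun e => by cases e <;> simp only [Option.elim] <;> positivity)
    (fun F => (H F).trans (le_of_eq (by
      have e : Fᶜ = univ.filter fun e => e ∉ F := by ext; simp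
      rw [e, sum_filter, Fintype.sum_option, ← sum_filter]
      simp only [Option.elim, sum_const, nsmul_eq_mul]
      split_ifs <;> ring)))
    (fun t => ((G.dv x1 t : ℤ) : ℝ)) (ε / 2) (by positivity)
  refine ⟨fun d => x1 d + 2 * (m (some d) + (if G.tw d then 1 else -1) * m (some (G.r d))),
    fun d => cur (some d) + (if G.tw d then 1 else -1) * cur (some (G.r d)), m none, cur none,
    fun d => ?_, fun d => ?_, fun d => ?_, fun d => ?_, ?_, fun t => ?_⟩
  · simp only [G.rr, G.twr, r1 d]
    split_ifs <;> ring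
  · simp only
    rw [add_sub_right_comm]
    exact (o1 d).add (even_two_mul _)
  · simp only [G.rr, G.twr]
    split_ifs <;> ring
  · have a1 := abs_le.1 (h1 (some d))
    have a2 := abs_le.1 (h1 (some (G.r d)))
    simp only [Option.elim] at a1 a2 ⊢
    rw [abs_le]
    split_ifs <;> constructor <;> linarith [a1.1, a1.2, a2.1, a2.2]
  · have a1 := h1 none
    simp only [Option.elim] at a1
    linarith
  · have e := h2 t
    rw [Fintype.sum_option, Fintype.sum_option, key_Side G z fun d => (m (some d) : ℝ),
      key_Side G z fun d => cur (some d)] at e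
    have e1 : ((G.dv (fun d => x1 d + 2 * (m (some d) +
        (if G.tw d then 1 else -1) * m (some (G.r d)))) t : ℤ) : ℝ) = ((G.dv x1 t : ℤ) : ℝ) +
        2 * G.dv (fun d => (m (some d) : ℝ) +
          (if G.tw d then 1 else -1) * (m (some (G.r d)) : ℝ)) t := by
      simp only [SG.dv]
      push_cast
      rw [sum_add_distrib, mul_sum]
    rw [e1]
    simp only [SG.vec] at e
    linarith

end Pool.Agent.MP_9a3194_co.En
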