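import Pool.Agent.MP_9a3194_co.En.Defs

/-! Signed graphs on darts and the statements of the steps. -/

open Finset

namespace Pool.Agent.MP_9a3194_co.En

/-- functions annihilated by the vectors with index in `F` -/
def ann {T E : Type} [Fintype T] (b : E → T → ℤ) (F : Finset E) : Submodule ℝ (T → ℝ) where
  carrier := {φ | ∀ e ∈ F, ∑ t, (b e t : ℝ) * φ t = 0}
  add_mem' := fun {φ ψ} h1 h2 e he => by
    simp only [Pi.add_apply, mul_add, sum_add_distrib, h1 e he, h2 e he, add_zero]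
  zero_mem' := fun e _ => by simp
  smul_mem' := fun r φ h e he => by
    have := h e he
    simp only [Pi.smul_apply, smul_eq_mul, mul_left_comm _ r, ← mul_sum, this, mul_zero]

/-- a signed multigraph: darts `D`, nodes `T`, the dart `d` sits at the node `fc d` -/
structure SG (D T : Type) where
  r : D → D
  tw : D → Bool
  fc : D → T
  rr : ∀ d, r (r d) = d
  rne : ∀ d, r d ≠ d
  twr : ∀ d, tw (r d) = tw d

namespace SG

variable {D T : Type} (G : SG D T)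

/-- symmetric on twisted edges, antisymmetric on the others -/
def Rule {R : Type} [Neg R] (x : D → R) : Prop :=
  ∀ d, x (G.r d) = if G.tw d then x d else -x d

/-- the sum over the darts at a node -/
def dv [Fintype D] [DecidableEq T] {R : Type} [AddCommMonoid R] (x : D → R) (t : T) : R :=
  ∑ d ∈ univ.filter (fun d => G.fc d = t), x d

/-- the darts leaving a set of nodes -/
def out [Fintype D] [DecidableEq T] (X : Finset T) : Finset D :=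
  univ.filter fun d => G.fc d ∈ X ∧ G.fc (G.r d) ∉ X

/-- the labelling `o` changes along the edge of `d` exactly if the edge is twisted -/
def Ok (o : T → Bool) (d : D) : Prop := o (G.fc (G.r d)) = xor (o (G.fc d)) (G.tw d)

instance (o : T → Bool) (d : D) : Decidable (G.Ok o d) :=
  inferInstanceAs (Decidable (o (G.fc (G.r d)) = xor (o (G.fc d)) (G.tw d)))

/-- the subgraph induced on `X` is balanced -/
def Bal (X : Finset T) : Prop :=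
  ∃ o : T → Bool, ∀ d, G.fc d ∈ X → G.fc (G.r d) ∈ X → G.Ok o d

/-- every partition of the nodes into `m` classes has at least `σ (m - 1)` crossing edges -/
def Den [Fintype D] [Fintype T] (σ : ℝ) : Prop :=
  ∀ π : T → ℕ, 2 * σ * (((univ.image π).card : ℝ) - 1) ≤
    ((univ.filter fun d => π (G.fc (G.r d)) ≠ π (G.fc d)).card : ℝ)

/-- the incidence vectors of the darts and one more vector -/
def vec [DecidableEq T] (z : T → ℤ) : Option D → T → ℤ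
  | none => z
  | some d => fun t => (if G.fc d = t then 1 else 0) +
      if G.fc (G.r d) = t then (if G.tw d then 1 else -1) else 0

/-- a `(p, q)`-flow -/
def Flow [Fintype D] [DecidableEq T] (p q : ℕ) (φ : D → ℤ) : Prop :=
  G.Rule φ ∧ (∀ d, (q : ℤ) ≤ |φ d| ∧ |φ d| ≤ p - q) ∧ ∀ t, G.dv φ t = 0

end SG

/-- `G` is the signed dual of `M` -/
def Poly.Dual {D T : Type} (M : Poly D) (G : SG D T) : Prop :=
  (∀ d, G.r d = M.α d) ∧ (∀ d, G.tw d = M.tw d) ∧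
    (∀ d d', G.fc d = G.fc d' ↔ M.nxt.SameCycle d d') ∧ Function.Surjective G.fc

/-- closed walks shorter than `c` are contractible -/
def Poly.Wide {D : Type} (M : Poly D) (c : ℕ) : Prop :=
  ∀ x w, M.Walk x w x → w.length < c → M.Contr w

def LatStm : Prop := ∀ (T E : Type) [Fintype T] [DecidableEq T] [Fintype E] [DecidableEq E]
  (b : E → T → ℤ) (a : E → ℝ), (∀ e, 0 ≤ a e) →
  (∀ F : Finset E, (Module.finrank ℝ (ann b F) : ℝ) ≤ ∑ e ∈ Fᶜ, a e) →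
  ∀ (y : T → ℝ) (ε : ℝ), 0 < ε → ∃ (m : E → ℤ) (cur : E → ℝ), (∀ e, |cur e| ≤ a e + ε) ∧
    ∀ t, y t + 2 * ∑ e, (m e : ℝ) * b e t = ∑ e, cur e * b e t

def SideStm : Prop := ∀ (D T : Type) [Fintype D] [DecidableEq D] [Fintype T] [DecidableEq T]
  (G : SG D T) (z : T → ℤ) (lam a₀ ε : ℝ), 0 ≤ lam → 0 ≤ a₀ → 0 < ε →
  (∀ F : Finset (Option D), (Module.finrank ℝ (ann (G.vec z) F) : ℝ) ≤
    lam / 2 * ((univ.filter fun d => some d ∉ F).card : ℝ) + if none ∈ F then 0 else a₀) →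
  ∃ (x : D → ℤ) (C : D → ℝ) (m₀ : ℤ) (c₀ : ℝ), G.Rule x ∧ (∀ d, Even (x d - 1)) ∧ G.Rule C ∧
    (∀ d, |C d| ≤ lam + ε) ∧ |c₀| ≤ a₀ + ε ∧
    ∀ t, ((G.dv x t : ℤ) : ℝ) + 2 * m₀ * z t = G.dv C t + c₀ * z t

def RankStm : Prop := ∀ (D T : Type) [Fintype D] [DecidableEq D] [Fintype T] [DecidableEq T]
  (G : SG D T) (σ : ℝ) (z : T → ℤ) (F : Finset (Option D)), 0 ≤ σ → G.Den σ →
  2 * σ * ((Module.finrank ℝ (ann (G.vec z) F) : ℝ) - 1) ≤
      ((univ.filter fun d => some d ∉ F).card : ℝ) ∧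
    ((∃ t, ∀ ψ ∈ ann (G.vec z) F, ψ t = 0) → 2 * σ * (Module.finrank ℝ (ann (G.vec z) F) : ℝ) ≤
      ((univ.filter fun d => some d ∉ F).card : ℝ)) ∧
    ((∀ t, ∃ ψ ∈ ann (G.vec z) F, ψ t ≠ 0) → ∃ o : T → Bool, ∀ d, some d ∈ F → G.Ok o d)

def HofStm : Prop := ∀ (D T : Type) [Fintype D] [DecidableEq D] [Fintype T] [DecidableEq T]
  (G : SG D T), (∀ d, G.tw d = false) → ∀ (κ : ℕ) (x₀ : D → ℤ) (C : D → ℝ) (ε : ℝ), 0 ≤ ε →
  ε * (Fintype.card D : ℝ) < 1 → G.Rule x₀ → G.Rule C → (∀ d, Even (x₀ d - κ)) →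
  (∀ d, |C d| ≤ κ + ε) → (∀ t, ((G.dv x₀ t : ℤ) : ℝ) = G.dv C t) →
  ∃ x : D → ℤ, G.Rule x ∧ (∀ d, Even (x d - κ)) ∧ (∀ d, |x d| ≤ κ) ∧ ∀ t, G.dv x t = G.dv x₀ t

def BmStm : Prop := ∀ (W A : Type) [Fintype W] [DecidableEq W] [Fintype A] [DecidableEq A]
  (p q : A → W) (c : A → ℝ) (bb : W → ℕ), (∀ a, 0 ≤ c a) → (∀ a, p a ≠ q a) →
  (∀ w, ∑ a, ((if p a = w then c a else 0) + if q a = w then c a else 0) = (bb w : ℝ)) →
  Even (∑ w, bb w) →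
  (∀ K : Finset W, (1 ≤ ∑ a, if (p a ∈ K ↔ q a ∈ K) then 0 else c a) ∨
    (∃ χ : W → Bool, ∀ a, c a ≠ 0 → p a ∈ K → q a ∈ K → χ (p a) ≠ χ (q a)) ∨
    (∃ χ : W → Bool, ∀ a, c a ≠ 0 → p a ∉ K → q a ∉ K → χ (p a) ≠ χ (q a))) →
  ∃ N : A → ℕ, (∀ a, c a = 0 → N a = 0) ∧
    ∀ w, ∑ a, ((if p a = w then N a else 0) + if q a = w then N a else 0) = bb w

def RndStm : Prop := ∀ (D T : Type) [Fintype D] [DecidableEq D] [Fintype T] [DecidableEq T]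
  (G : SG D T) (κ : ℕ) (x₀ : D → ℤ) (C : D → ℝ) (η : ℝ), 0 < η →
  G.Rule x₀ → G.Rule C → (∀ d, Even (x₀ d - κ)) → (∀ d, |C d| ≤ κ - 2 * η) →
  (∀ t, ((G.dv x₀ t : ℤ) : ℝ) = G.dv C t) →
  (∀ X : Finset T, η * ((G.out X).card : ℝ) < 1 → G.Bal X ∨ G.Bal Xᶜ) →
  ∃ x : D → ℤ, G.Rule x ∧ (∀ d, Even (x d - κ)) ∧ (∀ d, |x d| ≤ κ) ∧ ∀ t, G.dv x t = G.dv x₀ t

def TwoStm : Prop := ∀ (D T : Type) [Fintype D] [DecidableEq D] [Fintype T] [DecidableEq T]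
  (G : SG D T) (p q κ : ℕ) (x h : D → ℤ), κ + 2 * q = p → G.Rule x → G.Rule h →
  (∀ d, Even (x d - (1 : ℕ))) → (∀ d, |x d| ≤ (1 : ℕ)) → (∀ d, Even (h d - κ)) →
  (∀ d, |h d| ≤ κ) → (∀ t, G.dv h t = G.dv (fun d => (p : ℤ) * x d) t) → ∃ φ, G.Flow p q φ

def CoreBStm : Prop := ∀ (p q : ℕ) (σ : ℝ), 2 * q < p → (p : ℝ) ≤ σ * (p - 2 * q) →
  ∀ (D T : Type) [Fintype D] [DecidableEq D] [Fintype T] [DecidableEq T] (G : SG D T),
  (∀ d, G.tw d = false) → G.Den σ → ∃ φ, G.Flow p q φ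

def CoreUStm : Prop := ∀ (p q : ℕ) (σ : ℝ), 2 * q < p → (p : ℝ) < σ * (p - 2 * q) → ∃ k : ℕ,
  ∀ (D T : Type) [Fintype D] [DecidableEq D] [Fintype T] [DecidableEq T] (G : SG D T),
  G.Den σ → (∀ o : T → Bool, k ≤ (univ.filter fun d => ¬ G.Ok o d).card) →
  (∀ X : Finset T, (G.out X).card < k → G.Bal X ∨ G.Bal Xᶜ) → ∃ φ, G.Flow p q φ

def SheetStm : Prop := ∀ (D : Type) [Fintype D] (M : Poly D),
  ∃ γ : D → Bool, ∀ e, γ (M.tail (M.mate e)) = xor (γ (M.tail e)) (M.tw e.1)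

def PotStm : Prop := ∀ (D : Type) (M : Poly D) (c : ℕ), M.Wide c → ∀ S : Finset D,
  2 ^ S.card ≤ c → ∃ h : D → PresentedGroup M.rels, (∀ x y, M.Same x y → h x = h y) ∧
    ∀ d ∈ S, h d * PresentedGroup.of d = h (M.nxt d)

def ActStm : Prop := ∀ (D : Type) (M : Poly D) (Q : Type) [AddCommGroup Q] (γ : D → Bool)
  (L : D → Bool → Q), (∀ e, γ (M.tail (M.mate e)) = xor (γ (M.tail e)) (M.tw e.1)) →
  (∀ ζ : Q, ζ + ζ = 0) → (∀ d s, L (M.α d) (xor s (M.tw d)) = L d s) →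
  (∀ (d : D) (n : ℕ) (s : Bool), (M.nxt ^ n) d = d → ∑ i ∈ range n, L ((M.nxt ^ i) d) s = 0) →
  ∃ (sh : PresentedGroup M.rels → Bool) (ζ : PresentedGroup M.rels → Q),
    ∀ g d, ζ (g * PresentedGroup.of d) = ζ g + L d (xor (sh g) (γ d))

def KeyStm : Prop := ∀ (D : Type) [Fintype D] [DecidableEq D] (M : Poly D) (c : ℕ), M.Wide c →
  ∀ (Z : Finset D) (g : D → Bool),
  (∀ e, xor (g (M.tail (M.mate e))) (g (M.tail e)) = decide (e.1 ∈ Z)) → 2 ^ Z.card ≤ c →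
  ∃ y : D → Bool → ZMod 2, (∀ d b, y (M.nxt d) b = y d b) ∧
    (∀ d ∉ Z, ∀ b, y (M.α d) (xor b (M.tw d)) = y d b) ∧
    ∀ d ∈ Z, y d false + y d true + (y (M.α d) false + y (M.α d) true) = 1

def CutsStm : Prop := ∀ (D T : Type) [Fintype D] [DecidableEq D] [Fintype T] [DecidableEq T]
  (M : Poly D) (G : SG D T) (σ : ℝ) (c k : ℕ), M.Dual G → 0 < σ → G.Den σ → M.Wide c →
  2 ^ (2 * k) ≤ c → (∀ X : Finset T, (G.out X).card < k → G.Bal X ∨ G.Bal Xᶜ) ∧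
    ((∃ o : T → Bool, ∀ d, G.Ok o d) ∨
      ∀ o : T → Bool, k ≤ (univ.filter fun d => ¬ G.Ok o d).card)

def HeightStm : Prop := ∀ (D T : Type) [Fintype D] [DecidableEq D] [Fintype T] [DecidableEq T]
  (M : Poly D) (G : SG D T) (φ : D → ℤ), M.Dual G → G.Rule φ → (∀ t, G.dv φ t = 0) →
  ∀ w, M.Contr w → (w.map fun e => if e.2 then -φ e.1 else φ e.1).sum = 0

def MapStm : Prop := ∀ (p q : ℕ) (σ : ℝ), 2 * q < p → (p : ℝ) < σ * (p - 2 * q) → ∃ c : ℕ,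
  ∀ (D : Type) [Fintype D] [DecidableEq D] (M : Poly D),
  (∀ π : D → ℕ, (∀ d, π (M.nxt d) = π d) → 2 * σ * (((univ.image π).card : ℝ) - 1) ≤
    ((univ.filter fun d => π (M.α d) ≠ π d).card : ℝ)) →
  (∀ x w, M.Walk x w x → w.length < c → M.Contr w) →
  ∃ φ : D → ℤ, (∀ d, φ (M.α d) = if M.tw d then φ d else -φ d) ∧
    (∀ d, (q : ℤ) ≤ |φ d| ∧ |φ d| ≤ p - q) ∧
    ∀ x w, M.Walk x w x → M.Contr w → (w.map fun e => if e.2 then -φ e.1 else φ e.1).sum = 0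

def TreeStm : Prop := ∀ p q : ℕ, 2 * q < p →
  ∀ (V E : Type) [Fintype V] [DecidableEq V] [Fintype E] [DecidableEq E] (s t : E → V),
  (∀ π : V → ℕ, (p : ℤ) * (((univ.image π).card : ℤ) - 1) ≤
    ((p : ℤ) - 2 * q) * ((univ.filter fun e => π (s e) ≠ π (t e)).card : ℤ)) →
  ∃ f : E → ℤ, (∀ e, (q : ℤ) ≤ |f e| ∧ |f e| ≤ p - q) ∧
    ∀ v, ∑ e ∈ univ.filter (fun e => s e = v), f e = ∑ e ∈ univ.filter (fun e => t e = v), f e

end Pool.Agent.MP_9a3194_co.En
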