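import Pool.Agent.MP_9a3194_co.En.Stm

open Finset

namespace Pool.Agent.MP_9a3194_co.En

/-- the two darts of every edge -/
def gr_Tree {V E : Type} (s t : E → V) : SG (E × Bool) V where
  r := fun d => (d.1, !d.2)
  tw := fun _ => false
  fc := fun d => if d.2 then t d.1 else s d.1
  rr := fun d => by simp
  rne := fun d h => by simpa using congrArg Prod.snd h
  twr := fun _ => rfl

theorem card_Tree {V E : Type} [Fintype E] (s t : E → V) (π : V → ℕ) :
    (univ.filter fun d => π ((gr_Tree s t).fc ((gr_Tree s t).r d)) ≠ π ((gr_Tree s t).fc d)).card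
      = 2 * (univ.filter fun e => π (s e) ≠ π (t e)).card := by
  rw [card_filter, card_filter, Fintype.sum_prod_type, mul_sum]
  refine sum_congr rfl fun e _ => ?_
  by_cases h : π (s e) = π (t e)
  · simp [gr_Tree, h]
  · simp [gr_Tree, h, Ne.symm h]

theorem tree_pf (hB : CoreBStm) : TreeStm := by
  intro p q hpq V E _ _ _ _ s t h
  have h0 : (0 : ℝ) < (p : ℝ) - 2 * q := by
    have : ((2 * q : ℕ) : ℝ) < p := by exact_mod_cast hpq
    push_cast at this
    linarith
  obtain ⟨φ, h1, h2, h3⟩ := hB p q (p / (p - 2 * q)) hpq (by rw [div_mul_cancel₀ _ h0.ne'])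
    (E × Bool) V (gr_Tree s t) (fun _ => rfl) fun π => by
      have a : (p : ℝ) * (((univ.image π).card : ℝ) - 1) ≤
          ((p : ℝ) - 2 * q) * ((univ.filter fun e => π (s e) ≠ π (t e)).card : ℝ) := by
        exact_mod_cast h π
      rw [card_Tree, mul_assoc, div_mul_eq_mul_div]
      push_cast
      rw [mul_comm ((p : ℝ) - 2 * q), ← div_le_iff₀ h0] at a
      linarith
  refine ⟨fun e => φ (e, false), fun e => h2 _, fun v => ?_⟩
  have a : ∀ e, φ (e, true) = -φ (e, false) := fun e => h1 (e, false)
  have b := h3 v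
  rw [SG.dv, sum_filter, Fintype.sum_prod_type] at b
  rw [sum_filter, sum_filter, ← sub_eq_zero, ← sum_sub_distrib]
  refine Eq.trans (sum_congr rfl fun e _ => ?_) b
  simp only [gr_Tree, Fintype.sum_bool, a, if_true, Bool.false_eq_true, if_false]
  split_ifs <;> ring

end Pool.Agent.MP_9a3194_co.En
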