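import Pool.Agent.MP_9a3194_co.En.Stm

open Finset

namespace Pool.Agent.MP_9a3194_co.En

theorem two_pf : TwoStm := by
  intro D T _ _ _ _ G p q κ x h hp hx hh ex bx eh bh hs
  have hp' : (p : ℤ) = κ + 2 * q := by rw [← hp]; push_cast; ring
  have x1 : ∀ d, x d = 1 ∨ x d = -1 := fun d => by
    obtain ⟨k, hk⟩ := ex d
    have := abs_le.1 (bx d)
    push_cast at hk this
    omega
  have key : ∀ d, 2 * (((p : ℤ) * x d - h d) / 2) = p * x d - h d := fun d => by
    obtain ⟨k, hk⟩ := eh d
    rcases x1 d with h1 | h1 <;> rw [h1] <;> omega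
  refine ⟨fun d => ((p : ℤ) * x d - h d) / 2, fun d => ?_, fun d => ?_, fun t => ?_⟩
  · have h1 := key d
    have h2 := key (G.r d)
    have h3 := hx d
    have h4 := hh d
    have h5 : (p : ℤ) * x (G.r d) = if G.tw d then p * x d else -(p * x d) := by
      rw [h3]
      split_ifs <;> ring
    show ((p : ℤ) * x (G.r d) - h (G.r d)) / 2 = if G.tw d then ((p : ℤ) * x d - h d) / 2
      else -(((p : ℤ) * x d - h d) / 2)
    generalize (p : ℤ) * x (G.r d) = u at *
    generalize (p : ℤ) * x d = v at *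
    split_ifs at h4 h5 ⊢ <;> omega
  · have h1 := key d
    have h2 := abs_le.1 (bh d)
    show (q : ℤ) ≤ |((p : ℤ) * x d - h d) / 2| ∧ |((p : ℤ) * x d - h d) / 2| ≤ p - q
    rcases x1 d with h3 | h3 <;> rw [h3] at h1 ⊢
    · rw [abs_of_nonneg (by omega)]
      omega
    · rw [abs_of_nonpos (by omega)]
      omega
  · have h1 := hs t
    have h2 : 2 * G.dv (fun d => ((p : ℤ) * x d - h d) / 2) t =
        G.dv (fun d => (p : ℤ) * x d) t - G.dv h t := by
      simp only [SG.dv, mul_sum, key, sum_sub_distrib]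
    omega

end Pool.Agent.MP_9a3194_co.En
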